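import Pool.Agent.Helper39.LG.Two
import Pool.Agent.Helper85.LG.Pos

set_option autoImplicit false
set_option maxHeartbeats 1000000

open Complex Filter Topology Set Metric
open Pool.Agent.H306R2 (Zt)

namespace Pool.Agent.Helper68.JE

open Pool.Agent.Helper39.LG (two_const)

/-- a holomorphic branch of `log (Zt (2 + it + w) / Zt (2 + it))` -/
lemma branch {θ T0 : ℝ} (hθ : 1 / 2 ≤ θ) (hθ1 : θ < 1)
    (hz0 : ∀ s : ℂ, θ < s.re → T0 ≤ |s.im| → Zt s ≠ 0) (t : ℝ) (ht : T0 + 2 ≤ |t|) :
    ∃ f : ℂ → ℂ, DifferentiableOn ℂ f (ball 0 (2 - θ)) ∧ f 0 = 0 ∧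
      (∀ w ∈ ball (0 : ℂ) (2 - θ), Zt (2 + t * I + w) = Zt (2 + t * I) * exp (f w)) ∧
      (∀ w ∈ ball (0 : ℂ) (2 - θ), HasDerivAt f (logDeriv Zt (2 + t * I + w)) w) := by
  have hR : 0 < 2 - θ := by linarith
  have hre : ∀ w ∈ ball (0 : ℂ) (2 - θ), θ < (2 + t * I + w).re := by
    intro w hw
    rw [mem_ball_zero_iff] at hw
    have := (abs_le.1 (Complex.abs_re_le_norm w)).1
    simp
    linarith
  have him : ∀ w ∈ ball (0 : ℂ) (2 - θ), T0 ≤ |(2 + t * I + w).im| := by
    intro w hw
    rw [mem_ball_zero_iff] at hw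
    have h1 := Complex.abs_im_le_norm w
    have h2 : (2 + t * I + w).im = t + w.im := by simp
    rw [h2]
    have h3 : |t| ≤ |t + w.im| + |w.im| := by
      have := abs_sub (t + w.im) w.im
      rwa [add_sub_cancel_right] at this
    linarith
  have hz : ∀ w ∈ ball (0 : ℂ) (2 - θ), Zt (2 + t * I + w) ≠ 0 := fun w hw =>
    hz0 _ (hre w hw) (him w hw)
  have hZd : ∀ w ∈ ball (0 : ℂ) (2 - θ), DifferentiableAt ℂ (fun w => Zt (2 + t * I + w)) w := by
    intro w hw
    have h1 := Pool.Agent.H306R2.Zt_differentiableAt (s := 2 + t * I + w) (by linarith [hre w hw])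
    exact h1.comp w (by fun_prop)
  have hld : DifferentiableOn ℂ (fun w => logDeriv Zt (2 + t * I + w)) (ball 0 (2 - θ)) := by
    intro w hw
    apply DifferentiableAt.differentiableWithinAt
    have h1 : AnalyticAt ℂ Zt (2 + t * I + w) :=
      Pool.Agent.H306R2.Zt_analyticOn _ (by
        have := hre w hw
        show 0 < (2 + t * I + w).re
        linarith)
    have h2 : DifferentiableAt ℂ (logDeriv Zt) (2 + t * I + w) := by
      have : logDeriv Zt = fun z => deriv Zt z / Zt z := by
        funext z; rw [logDeriv_apply]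
      rw [this]
      exact h1.deriv.differentiableAt.div h1.differentiableAt (hz w hw)
    exact h2.comp w (by fun_prop)
  obtain ⟨F, hF⟩ := hld.isExactOn_ball
  refine ⟨fun w => F w - F 0, ?_, by simp, ?_, ?_⟩
  · intro w hw
    exact ((hF w hw).differentiableAt.sub_const _).differentiableWithinAt
  · -- the quotient is constant
    set H : ℂ → ℂ := fun w => Zt (2 + t * I + w) * exp (-(F w - F 0)) with hH
    have hHd : ∀ w ∈ ball (0 : ℂ) (2 - θ), HasDerivAt H 0 w := by
      intro w hw
      have h1 : HasDerivAt (fun w => Zt (2 + t * I + w)) (deriv Zt (2 + t * I + w)) w := by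
        have h1 := (Pool.Agent.H306R2.Zt_differentiableAt (s := 2 + t * I + w)
          (by linarith [hre w hw])).hasDerivAt
        have h2 : HasDerivAt (fun w : ℂ => 2 + t * I + w) 1 w := (hasDerivAt_id w).const_add _
        have := h1.comp w h2
        rwa [mul_one] at this
      have h2 : HasDerivAt (fun w => exp (-(F w - F 0)))
          (exp (-(F w - F 0)) * (-(logDeriv Zt (2 + t * I + w)))) w :=
        ((hF w hw).sub_const _).neg.cexp
      have h3 := h1.mul h2
      have e : deriv Zt (2 + t * I + w) * exp (-(F w - F 0)) + Zt (2 + t * I + w) *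
          (exp (-(F w - F 0)) * (-(logDeriv Zt (2 + t * I + w)))) = 0 := by
        rw [logDeriv_apply]
        have := hz w hw
        field_simp
        ring
      rw [e] at h3
      exact h3
    intro w hw
    have hconst : H w = H 0 := by
      have hconv : Convex ℝ (ball (0 : ℂ) (2 - θ)) := convex_ball _ _
      exact (isOpen_ball.is_const_of_deriv_eq_zero hconv.isPreconnected
        (fun z hz => (hHd z hz).differentiableAt.differentiableWithinAt)
        (fun z hz => (hHd z hz).deriv) hw (mem_ball_self hR))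
    rw [hH] at hconst
    simp only [add_zero, sub_self, neg_zero, Complex.exp_zero, mul_one] at hconst
    rw [← hconst, mul_assoc, ← Complex.exp_add]
    simp
  · intro w hw
    exact (hF w hw).sub_const _

/-- the branch is `o(log t)` on compact parts of the disc -/
lemma branch_small {θ T0 : ℝ} (hθ : 1 / 2 ≤ θ) (hθ1 : θ < 1)
    (hz : ∀ s : ℂ, θ < s.re → T0 ≤ |s.im| → Zt s ≠ 0)
    {r : ℝ} (hr0 : 0 ≤ r) (hr : r < 2 - θ) {η : ℝ} (hη : 0 < η) :
    ∃ T : ℝ, 2 ≤ T ∧ ∀ t : ℝ, T ≤ |t| → ∃ f : ℂ → ℂ, DifferentiableOn ℂ f (ball 0 (2 - θ)) ∧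
      (∀ w ∈ ball (0 : ℂ) (2 - θ), Zt (2 + t * I + w) = Zt (2 + t * I) * exp (f w)) ∧
      (∀ w ∈ ball (0 : ℂ) (2 - θ), HasDerivAt f (logDeriv Zt (2 + t * I + w)) w) ∧
      ∀ w : ℂ, ‖w‖ ≤ r → ‖f w‖ ≤ η * Real.log |t| := by
  obtain ⟨A, hA1, hA⟩ := Pool.Agent.Helper85.LG.ld_bounds (y0 := 1) (by norm_num)
  obtain ⟨B, hB1, hB⟩ := Pool.Agent.Helper85.LG.zeta_two_sided (σ := 2) (by norm_num)
  set R0 : ℝ := 2 - θ with hR0
  have hR01 : 1 < R0 := by rw [hR0]; linarith
  have hR02 : R0 ≤ 3 / 2 := by rw [hR0]; linarith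
  set r' : ℝ := max r (3 / 4) with hr'
  have hr'1 : r ≤ r' := le_max_left _ _
  have hr'2 : 3 / 4 ≤ r' := le_max_right _ _
  have hr'3 : r' < R0 := max_lt hr (by linarith)
  set R1 : ℝ := (r' + R0) / 2 with hR1
  have hR1a : r' < R1 := by rw [hR1]; linarith
  have hR1b : R1 < R0 := by rw [hR1]; linarith
  -- the constant in the Borel-Caratheodory bound
  set K : ℝ := 2 * (Real.log (3 * B) + 10) * R0 / (R0 - R1) with hK
  have hlB : 0 ≤ Real.log (3 * B) := Real.log_nonneg (by linarith)
  have hK0 : 0 ≤ K := by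
    have : 0 < R0 - R1 := by linarith
    positivity
  obtain ⟨L0, hL00, hL0⟩ := two_const (r0 := 1 / 2) (r := r') (R := R1) (A := A) (C := K)
    (by norm_num) (by linarith) (by linarith) hR1a (by linarith) hK0 hη
  refine ⟨max (T0 + 2) (max 3 (Real.exp L0)), le_trans (by norm_num) ((le_max_left _ _).trans (le_max_right _ _)),
    fun t ht => ?_⟩
  have htT0 : T0 + 2 ≤ |t| := (le_max_left _ _).trans ht
  have ht3 : 3 ≤ |t| := ((le_max_left _ _).trans (le_max_right _ _)).trans ht
  have htL : Real.exp L0 ≤ |t| := ((le_max_right _ _).trans (le_max_right _ _)).trans ht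
  have hlog : L0 ≤ Real.log |t| := (Real.le_log_iff_exp_le (by linarith)).2 htL
  have hlog1 : 1 ≤ Real.log |t| := by
    rw [Real.le_log_iff_exp_le (by linarith)]
    have := Real.exp_one_lt_d9
    linarith
  obtain ⟨f, hfd, hf0, hfe, hfder⟩ := branch hθ hθ1 hz t htT0
  refine ⟨f, hfd, hfe, hfder, fun w hw => ?_⟩
  refine hL0 (Real.log |t|) hlog f (hfd.mono (ball_subset_ball hR1b.le)) ?_ ?_ w (hw.trans hr'1)
  · -- Borel-Caratheodory
    intro w hw
    rw [mem_ball_zero_iff] at hw
    have hM : 0 < (Real.log (3 * B) + 10) * Real.log |t| := by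
      apply mul_pos <;> linarith
    have hmaps : MapsTo f (ball 0 R0) {z | z.re ≤ (Real.log (3 * B) + 10) * Real.log |t|} := by
      intro z hz'
      show (f z).re ≤ _
      have e := hfe z hz'
      have h1 : ‖Zt (2 + t * I + z)‖ = ‖Zt (2 + t * I)‖ * Real.exp (f z).re := by
        rw [e, norm_mul, Complex.norm_exp]
      rw [mem_ball_zero_iff] at hz'
      have hzre := (abs_le.1 (Complex.abs_re_le_norm z)).1
      have h2 : ‖Zt (2 + t * I + z)‖ ≤ 3 * (‖(2 + t * I + z : ℂ)‖ + 1) ^ 2 := by
        apply Pool.Agent.H306R2.Zt_norm_le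
        simp
        linarith
      have h3 : ‖(2 + t * I + z : ℂ)‖ ≤ |t| + 7 / 2 := by
        calc ‖(2 + t * I + z : ℂ)‖ ≤ ‖(2 : ℂ)‖ + ‖(t * I : ℂ)‖ + ‖z‖ := norm_add₃_le
          _ ≤ 2 + |t| + 3 / 2 := by
              rw [norm_mul, norm_I, mul_one, Complex.norm_real, Real.norm_eq_abs]
              have : ‖(2 : ℂ)‖ = 2 := by simp
              rw [this]
              linarith
          _ = _ := by ring
      -- lower bound at `2 + it`
      have h4 : 1 ≤ B * ‖Zt (2 + t * I)‖ := by
        have hne : (2 + t * I : ℂ) ≠ 1 := by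
          intro h
          have := congrArg Complex.re h
          simp at this
        rw [← Pool.Agent.H306R2.zeta_eq_pos (s := 2 + t * I) (by simp) hne, norm_mul]
        have h5 := (hB (2 + t * I) (by simp)).2
        have h6 : 1 ≤ ‖(2 + t * I - 1 : ℂ)‖ := by
          have := Complex.re_le_norm (2 + t * I - 1 : ℂ)
          simp at this
          linarith
        have h7 : 0 ≤ B * ‖riemannZeta (2 + t * I)‖ := by positivity
        nlinarith
      have h5 : Real.exp (f z).re ≤ 3 * B * (|t| + 9 / 2) ^ 2 := by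
        have h6 : ‖Zt (2 + t * I + z)‖ ≤ 3 * (|t| + 9 / 2) ^ 2 := by
          refine h2.trans ?_
          have : (‖(2 + t * I + z : ℂ)‖ + 1) ^ 2 ≤ (|t| + 9 / 2) ^ 2 :=
            pow_le_pow_left₀ (by positivity) (by linarith) 2
          linarith
        calc Real.exp (f z).re ≤ (B * ‖Zt (2 + t * I)‖) * Real.exp (f z).re :=
              le_mul_of_one_le_left (Real.exp_pos _).le h4
          _ = B * ‖Zt (2 + t * I + z)‖ := by rw [h1]; ring
          _ ≤ B * (3 * (|t| + 9 / 2) ^ 2) := mul_le_mul_of_nonneg_left h6 (by linarith)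
          _ = _ := by ring
      have h6 : (f z).re ≤ Real.log (3 * B * (|t| + 9 / 2) ^ 2) := by
        rw [Real.le_log_iff_exp_le (by positivity)]
        exact h5
      refine h6.trans ?_
      rw [Real.log_mul (by positivity) (by positivity), Real.log_pow]
      have h7 : Real.log (|t| + 9 / 2) ≤ 2 * Real.log |t| := by
        have : |t| + 9 / 2 ≤ |t| ^ 2 := by nlinarith
        calc Real.log (|t| + 9 / 2) ≤ Real.log (|t| ^ 2) := Real.log_le_log (by positivity) this
          _ = _ := by rw [Real.log_pow]; norm_num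
      push_cast
      nlinarith
    have h := Complex.borelCaratheodory_zero hM hfd hmaps (by linarith) (z := w)
      (by rw [mem_ball_zero_iff]; linarith) hf0
    refine h.trans ?_
    have hden : 0 < R0 - R1 := by linarith
    have hden2 : R0 - R1 ≤ R0 - ‖w‖ := by linarith
    calc 2 * ((Real.log (3 * B) + 10) * Real.log |t|) * ‖w‖ / (R0 - ‖w‖)
        ≤ 2 * ((Real.log (3 * B) + 10) * Real.log |t|) * R0 / (R0 - R1) := by
          apply div_le_div₀ (by positivity) _ hden hden2
          apply mul_le_mul_of_nonneg_left _ (by positivity)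
          linarith
      _ = K * Real.log |t| := by rw [hK]; ring
  · -- the small disc
    intro w hw
    have hconv : Convex ℝ (ball (0 : ℂ) (1 / 2)) := convex_ball _ _
    have h := hconv.norm_image_sub_le_of_norm_hasDerivWithin_le (f := f)
      (f' := fun z => logDeriv Zt (2 + t * I + z)) (C := A)
      (x := 0) (y := w) (fun z hz => (hfder z (ball_subset_ball (by linarith) hz)).hasDerivWithinAt)
      (fun z hz => ?_) (mem_ball_self (by norm_num)) hw
    · rw [hf0, sub_zero, sub_zero] at h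
      rw [mem_ball_zero_iff] at hw
      refine h.trans ?_
      nlinarith [norm_nonneg w]
    · rw [mem_ball_zero_iff] at hz
      have hzre := (abs_le.1 (Complex.abs_re_le_norm z)).1
      have e : (2 + t * I + z : ℂ) = 1 / 2 + ((3 / 2 + z.re : ℝ) : ℂ) + ((t + z.im : ℝ) : ℂ) * I := by
        apply Complex.ext <;> simp
        ring
      rw [e]
      exact (hA (t + z.im) (3 / 2 + z.re) (by linarith)).1

end Pool.Agent.Helper68.JE
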