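import Pool.Agent.Helper68.JE.RegFew

/-!
If for each `ε` all but finitely many zeros of the zeta function are in `Re s ≤ θ + ε` then
`ζ(s) = O(|t|^ε)` in `Re s ≥ σ` for all `σ > θ`.
-/

set_option autoImplicit false
set_option maxHeartbeats 4000000

open Complex Filter Topology Set Metric
open Pool.Agent.H306R2 (Zt)
open Pool.Agent.Helper85.LG (zeta_two_sided)

namespace Pool.Agent.Helper68.JE

/-- `ζ(s) = O(|t|^ε)` uniformly in `Re s ≥ σ`, for each `σ > θ` -/
def Gr (θ : ℝ) : Prop := ∀ σ > θ, ∀ ε > 0, ∃ C : ℝ, ∀ s : ℂ, σ ≤ s.re → 1 ≤ s.im →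
  ‖riemannZeta s‖ ≤ C * s.im ^ (ε : ℝ)

theorem gr_of_few {θ : ℝ} (hθ : 1 / 2 ≤ θ)
    (h : ∀ ε > 0, ∃ T : ℝ, ∀ s : ℂ, riemannZeta s = 0 → T ≤ |s.im| → s.re ≤ θ + ε) :
    Gr θ := by
  intro σ hσ ε hε
  rcases le_or_gt 1 θ with h1 | h1
  · obtain ⟨B, hB1, hB⟩ := zeta_two_sided (σ := σ) (by linarith)
    refine ⟨B, fun s hs ht => (hB s hs).1.trans ?_⟩
    exact le_mul_of_one_le_right (by linarith) (Real.one_le_rpow ht hε.le)
  set σ' : ℝ := min σ 1 with hσ'
  have hσ1 : σ' ≤ 1 := min_le_right _ _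
  have hσ2 : σ' ≤ σ := min_le_left _ _
  have hσ3 : θ < σ' := lt_min hσ h1
  clear_value σ'
  obtain ⟨T0, hT0⟩ := h ((σ' - θ) / 2) (by linarith)
  obtain ⟨T, hT2, hT⟩ := local_bounds (θ := θ + (σ' - θ) / 2) (σ := σ') (T0 := T0) (by linarith)
    (by linarith) hσ1 (Zt_ne (by linarith) hT0) hε
  obtain ⟨B, hB1, hB⟩ := zeta_two_sided (σ := 2) (by norm_num)
  -- bounded heights
  have hK : IsCompact (Icc σ' 2 ×ℂ Icc 1 T) := isCompact_Icc.reProdIm isCompact_Icc
  have hcont : ContinuousOn (fun s : ℂ => ‖riemannZeta s‖) (Icc σ' 2 ×ℂ Icc 1 T) := by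
    intro s hs
    apply ContinuousAt.continuousWithinAt
    rw [Complex.mem_reProdIm] at hs
    apply ContinuousAt.norm
    apply DifferentiableAt.continuousAt (𝕜 := ℂ)
    apply differentiableAt_riemannZeta
    intro h0
    rw [h0] at hs
    have := hs.2.1
    simp at this
    linarith
  obtain ⟨M, hM⟩ := hK.exists_bound_of_continuousOn hcont
  refine ⟨2 * B + |M|, fun s hs ht => ?_⟩
  have hpow : 1 ≤ s.im ^ ε := Real.one_le_rpow ht hε.le
  have hMn := abs_nonneg M
  have hs' : σ' ≤ s.re := hσ2.trans hs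
  rcases le_total 2 s.re with h2 | h2
  · refine (hB s h2).1.trans ?_
    calc B ≤ 2 * B + |M| := by linarith
      _ = (2 * B + |M|) * 1 := (mul_one _).symm
      _ ≤ _ := mul_le_mul_of_nonneg_left hpow (by linarith)
  rcases le_total T s.im with h3 | h3
  · have ht0 : 0 < s.im := by linarith
    have e : ((s.re : ℂ) + s.im * I) = s := Complex.re_add_im s
    have h4 := (hT s.im (by rw [abs_of_pos ht0]; exact h3) s.re hs' h2).1
    have h5 := (Pool.Agent.Helper39.LG.Zt_two hB1 hB s.im).1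
    rw [e, abs_of_pos ht0] at h4
    rw [abs_of_pos ht0] at h5
    have hne1 : s ≠ 1 := by
      intro h0
      rw [h0] at ht0
      simp at ht0
    rw [← Pool.Agent.H306R2.zeta_eq_pos (s := s) (by linarith) hne1, norm_mul] at h4
    have h6 : s.im ≤ ‖s - 1‖ := by
      have := Complex.abs_im_le_norm (s - 1)
      have e : (s - 1).im = s.im := by simp
      rw [e, abs_of_pos ht0] at this
      exact this
    have h7 : Real.exp (ε * Real.log s.im) = s.im ^ ε := by
      rw [Real.rpow_def_of_pos ht0]; congr 1; ring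
    rw [h7] at h4
    have hz := norm_nonneg (riemannZeta s)
    have h8 : s.im * ‖riemannZeta s‖ ≤ s.im * ((2 * B) * s.im ^ ε) := by
      calc s.im * ‖riemannZeta s‖ ≤ ‖s - 1‖ * ‖riemannZeta s‖ := by gcongr
        _ ≤ ‖Zt (2 + s.im * I)‖ * s.im ^ ε := h4
        _ ≤ (B * (1 + s.im)) * s.im ^ ε := by gcongr
        _ ≤ (B * (s.im + s.im)) * s.im ^ ε := by gcongr
        _ = _ := by ring
    refine (le_of_mul_le_mul_left h8 ht0).trans ?_
    gcongr
    linarith
  · have h4 := hM s (by rw [Complex.mem_reProdIm]; exact ⟨⟨hs', h2⟩, ⟨ht, h3⟩⟩)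
    rw [norm_norm] at h4
    refine h4.trans ?_
    calc M ≤ |M| := le_abs_self M
      _ ≤ (2 * B + |M|) * 1 := by linarith
      _ ≤ _ := mul_le_mul_of_nonneg_left hpow (by linarith)

end Pool.Agent.Helper68.JE
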