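import Pool.Agent.Helper68.JE.RegFew
import Pool.Agent.Helper85.DQ.Xst

/-!
If for each `ε` all but finitely many zeros of the zeta function are in `Re s ≤ 1/2 + ε` then the
Lindelöf hypothesis holds.
-/

set_option autoImplicit false
set_option maxHeartbeats 4000000

open Complex Filter Topology Set Metric
open Pool.Agent.H306R2 (Zt)
open Pool.Agent.Helper85.LG (Pg Pg_diffAt Pg_ne xi_eq Reg reg_abs zeta_two_sided)
open Pool.Agent.Helper85.DQ (Fx Fx_diff Fx_even Fx_conj ld_Pg xi_crude gauss_strip growth)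

namespace Pool.Agent.Helper68.JE

/-- the Lindelöf hypothesis -/
def LHyp : Prop := ∀ ε > 0, ∃ C : ℝ, ∀ t : ℝ, 1 ≤ t → ‖riemannZeta (1 / 2 + t * I)‖ ≤ C * t ^ (ε : ℝ)

lemma conv_box (t H : ℝ) : Convex ℝ {z : ℂ | 1 / 2 ≤ z.re ∧ z.re ≤ 2 ∧ |z.im - t| ≤ H} := by
  intro a ha b hb p q hp hq hpq
  simp only [mem_ofPred_eq] at ha hb ⊢
  obtain ⟨ha1, ha2, ha3⟩ := ha
  obtain ⟨hb1, hb2, hb3⟩ := hb
  have e1 : (p • a + q • b).re = p * a.re + q * b.re := by simp
  have e2 : (p • a + q • b).im = p * a.im + q * b.im := by simp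
  rw [e1, e2]
  rw [abs_le] at ha3 hb3 ⊢
  have hq' : q = 1 - p := by linarith
  subst hq'
  refine ⟨?_, ?_, ?_, ?_⟩ <;> nlinarith

/-- the bound at large heights -/
lemma lh_large {δ η T0 : ℝ} (hδ : 0 < δ) (hδ1 : δ ≤ 1 / 8) (hη : 0 < η)
    (h : ∀ s : ℂ, riemannZeta s = 0 → T0 ≤ |s.im| → s.re ≤ 1 / 2 + δ / 2) :
    ∃ T D : ℝ, 1 ≤ T ∧ 0 ≤ D ∧ ∀ t : ℝ, T ≤ t →
      ‖riemannZeta (1 / 2 + t * I)‖ ≤ D * Real.exp ((δ / 2 + 3 * η) * Real.log t) := by
  obtain ⟨T1, hT1, hloc⟩ := local_bounds (θ := 1 / 2 + δ / 2) (σ := 1 / 2 + δ) (T0 := T0) (by linarith)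
    (by linarith) (by linarith) (Zt_ne (by linarith) h) hη
  obtain ⟨B, hB1, hB⟩ := zeta_two_sided (σ := 2) (by norm_num)
  obtain ⟨C, hC1, hC⟩ := ld_Pg
  set H : ℝ := 40 / η + 1 with hH
  have hH1 : 1 ≤ H := by
    rw [hH]
    have : 0 < 40 / η := by positivity
    linarith
  obtain ⟨T2, hT2, hPg⟩ := hC 2 H
  obtain ⟨T3, hT3, hcr⟩ := xi_crude (y0 := 3 / 4) (ρ1 := 1) (by norm_num) (reg_abs (by norm_num)) (by norm_num)
    (Y := 1) (by norm_num) le_rfl H
  set D : ℝ := 3 * B * Real.exp (C * (1 + H)) with hD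
  have hD0 : 0 < D := by positivity
  refine ⟨max (max T1 T2) (max T3 (2 * H + 2 * T1 + 3)), D, hT2.trans ((le_max_right _ _).trans (le_max_left _ _)),
    hD0.le, fun t hT => ?_⟩
  have ht1 : T1 ≤ t := ((le_max_left _ _).trans (le_max_left _ _)).trans hT
  have ht2 : T2 ≤ t := ((le_max_right _ _).trans (le_max_left _ _)).trans hT
  have ht3 : T3 ≤ t := ((le_max_left _ _).trans (le_max_right _ _)).trans hT
  have ht4 : 2 * H + 2 * T1 + 3 ≤ t := ((le_max_right _ _).trans (le_max_right _ _)).trans hT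
  have ht9 : 9 ≤ t := by linarith
  have ht0 : 0 < t := by linarith
  set L : ℝ := 1 / 2 * Real.log t with hL
  have hlog : 1 ≤ Real.log t := by
    rw [Real.le_log_iff_exp_le ht0]
    have := Real.exp_one_lt_d9
    linarith
  have hL0 : 0 < L := by rw [hL]; linarith
  have hexpL : Real.exp (2 * L) = t := by
    rw [hL, show 2 * (1 / 2 * Real.log t) = Real.log t by ring, Real.exp_log ht0]
  set P : ℝ := ‖Pg (1 / 2 + t * I)‖ with hP
  have hP0 : 0 < P := norm_pos_iff.2 (Pg_ne (by simp))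
  -- the gamma factor
  have hpg : ∀ z : ℂ, 1 / 2 ≤ z.re → z.re ≤ 2 → |z.im - t| ≤ H →
      ‖Pg z‖ ≤ P * Real.exp (L * (z.re - 1 / 2) + C * ‖z - (1 / 2 + t * I)‖) := by
    intro z h1 h2 h3
    have hz1 : (1 / 2 + t * I : ℂ) ∈ {z : ℂ | 1 / 2 ≤ z.re ∧ z.re ≤ 2 ∧ |z.im - t| ≤ H} := by
      refine ⟨?_, ?_, ?_⟩
      · simp
      · simp; norm_num
      · simp; linarith
    have hs := (conv_box t H).segment_subset hz1 (show z ∈ _ from ⟨h1, h2, h3⟩)
    have hg := growth (g := Pg) (z1 := 1 / 2 + t * I) (z2 := z) (L := L) (M := C)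
      (fun z hz => Pg_diffAt (by linarith [(hs hz).1]))
      (fun z hz => Pg_ne (by linarith [(hs hz).1]))
      (fun z hz => (hPg t z ht2 (by linarith [(hs hz).1]) (hs hz).2.1 (hs hz).2.2).1)
    have e : (1 / 2 + t * I : ℂ).re = 1 / 2 := by simp
    rw [e] at hg
    exact hg
  set V : ℝ := P * (3 * B * t * Real.exp (4 * η * L)) * Real.exp (δ * L + C * (1 + H)) with hV
  have hV0 : 0 < V := by positivity
  have hFx : ∀ w : ℂ, -(1 / 2) < w.re → ‖Fx w‖ = ‖Zt (1 / 2 + w)‖ * ‖Pg (1 / 2 + w)‖ := by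
    intro w hw
    unfold Fx
    rw [xi_eq (by simp; linarith), norm_mul]
  -- the sides
  have hside0 : ∀ y : ℝ, |y - t| ≤ H → ‖Fx ((δ : ℂ) + y * I)‖ ≤ V := by
    intro y hy
    have hyt := abs_le.1 hy
    have hy0 : 0 < y := by linarith [hyt.1]
    have hy1 : T1 ≤ |y| := by rw [abs_of_pos hy0]; linarith [hyt.1]
    have hy2 : |y| ≤ 2 * t := by rw [abs_of_pos hy0]; linarith [hyt.2]
    have hlogy : Real.log |y| ≤ 4 * L := by
      have h1 : |y| ≤ t ^ 2 := by nlinarith
      have h2 := Real.log_le_log (by linarith) h1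
      rw [Real.log_pow] at h2
      push_cast at h2
      rw [hL]
      linarith
    rw [hFx _ (by simp; linarith)]
    have hZ : ‖Zt (1 / 2 + ((δ : ℂ) + y * I))‖ ≤ 3 * B * t * Real.exp (4 * η * L) := by
      have h1 := (hloc y hy1 (1 / 2 + δ) le_rfl (by linarith)).1
      have e : (((1 / 2 + δ : ℝ) : ℂ) + y * I) = 1 / 2 + ((δ : ℂ) + y * I) := by push_cast; ring
      rw [e] at h1
      have h2 := (Pool.Agent.Helper39.LG.Zt_two hB1 hB y).1
      refine h1.trans ?_
      have h3 : ‖Zt (2 + y * I)‖ ≤ 3 * B * t := h2.trans (by nlinarith)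
      have h4 : Real.exp (η * Real.log |y|) ≤ Real.exp (4 * η * L) := Real.exp_le_exp.2 (by nlinarith)
      exact mul_le_mul h3 h4 (Real.exp_pos _).le (by positivity)
    have hG : ‖Pg (1 / 2 + ((δ : ℂ) + y * I))‖ ≤ P * Real.exp (δ * L + C * (1 + H)) := by
      refine (hpg _ (by simp; linarith) (by simp; linarith) (by simpa using hy)).trans ?_
      refine mul_le_mul_of_nonneg_left (Real.exp_le_exp.2 ?_) hP0.le
      have e1 : (1 / 2 + ((δ : ℂ) + y * I) - (1 / 2 + t * I) : ℂ) = (δ : ℂ) + ((y - t : ℝ) : ℂ) * I := by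
        push_cast; ring
      have e2 : ‖(δ : ℂ) + ((y - t : ℝ) : ℂ) * I‖ ≤ 1 + H := by
        refine (norm_add_le _ _).trans ?_
        rw [norm_mul, norm_I, mul_one, Complex.norm_real, Complex.norm_real, Real.norm_eq_abs,
          Real.norm_eq_abs, abs_of_pos hδ]
        linarith
      have e3 : (1 / 2 + ((δ : ℂ) + y * I) : ℂ).re - 1 / 2 = δ := by simp
      rw [e1, e3]
      have e4 : C * ‖(δ : ℂ) + ((y - t : ℝ) : ℂ) * I‖ ≤ C * (1 + H) :=
        mul_le_mul_of_nonneg_left e2 (by linarith)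
      linarith
    calc ‖Zt (1 / 2 + ((δ : ℂ) + y * I))‖ * ‖Pg (1 / 2 + ((δ : ℂ) + y * I))‖
        ≤ (3 * B * t * Real.exp (4 * η * L)) * (P * Real.exp (δ * L + C * (1 + H))) :=
          mul_le_mul hZ hG (norm_nonneg _) (by positivity)
      _ = V := by rw [hV]; ring
  have hside : ∀ w : ℂ, |w.re| = δ → |w.im - t| ≤ H → ‖Fx w‖ ≤ V := by
    intro w h1 h2
    rcases le_total 0 w.re with h3 | h3
    · rw [abs_of_nonneg h3] at h1
      have h4 := hside0 w.im h2
      rw [← h1, Complex.re_add_im] at h4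
      exact h4
    · rw [abs_of_nonpos h3] at h1
      have h4 := hside0 w.im h2
      have h5 : ((δ : ℂ) + w.im * I) = -(starRingEnd ℂ) w := by
        apply Complex.ext
        · simp [h1]
        · simp
      rw [h5, Fx_even, Fx_conj, RCLike.norm_conj] at h4
      exact h4
  have htop : ∀ w : ℂ, |w.re| ≤ δ → |w.im - t| = H → ‖Fx w‖ ≤ V * Real.exp (20 * L) := by
    intro w h1 h2
    refine (hcr t w ht3 (by linarith) h2.le).trans ?_
    rw [hFx _ (by simp; norm_num)]
    have e0 : (1 / 2 + (((1 : ℝ) : ℂ) + t * I) : ℂ).re = 3 / 2 := by simp; norm_num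
    have hZ : ‖Zt (1 / 2 + (((1 : ℝ) : ℂ) + t * I))‖ ≤ 12 * t ^ 2 := by
      refine (Pool.Agent.H306R2.Zt_norm_le (by rw [e0]; norm_num)).trans ?_
      have h3 : ‖(1 / 2 + (((1 : ℝ) : ℂ) + t * I) : ℂ)‖ ≤ 3 / 2 + t := by
        have e : (1 / 2 + (((1 : ℝ) : ℂ) + t * I) : ℂ) = ((3 / 2 : ℝ) : ℂ) + t * I := by
          push_cast; ring
        rw [e]
        refine (norm_add_le _ _).trans ?_
        rw [norm_mul, norm_I, mul_one, Complex.norm_real, Complex.norm_real, Real.norm_eq_abs,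
          Real.norm_eq_abs, abs_of_pos ht0, abs_of_pos (by norm_num : (0 : ℝ) < 3 / 2)]
      have h4 : (‖(1 / 2 + (((1 : ℝ) : ℂ) + t * I) : ℂ)‖ + 1) ^ 2 ≤ (2 * t) ^ 2 :=
        pow_le_pow_left₀ (by positivity) (by linarith) 2
      linarith
    have hG : ‖Pg (1 / 2 + (((1 : ℝ) : ℂ) + t * I))‖ ≤ P * Real.exp (L + C) := by
      refine (hpg _ (by rw [e0]; norm_num) (by rw [e0]; norm_num) (by simp; linarith)).trans ?_
      refine mul_le_mul_of_nonneg_left (Real.exp_le_exp.2 ?_) hP0.le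
      have e1 : (1 / 2 + (((1 : ℝ) : ℂ) + t * I) - (1 / 2 + t * I) : ℂ) = 1 := by push_cast; ring
      rw [e0, e1, norm_one]
      linarith
    have e13 : ((1 : ℝ) + 12) = 13 := by norm_num
    have h4t : 4 * t ≤ Real.exp (4 * L) := by
      have : Real.exp (4 * L) = t * t := by
        have e : 4 * L = 2 * L + 2 * L := by ring
        rw [e, Real.exp_add, hexpL]
      rw [this]
      nlinarith
    have hBt : 3 * t * Real.exp (C) ≤ 3 * B * t * Real.exp (4 * η * L) * Real.exp (δ * L + C * (1 + H)) := by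
      have h5 : 1 ≤ Real.exp (4 * η * L) := Real.one_le_exp (by positivity)
      have h6 : Real.exp C ≤ Real.exp (δ * L + C * (1 + H)) := by
        apply Real.exp_le_exp.2
        have : 0 < δ * L := by positivity
        nlinarith
      calc 3 * t * Real.exp C = 3 * 1 * t * 1 * Real.exp C := by ring
        _ ≤ 3 * B * t * Real.exp (4 * η * L) * Real.exp (δ * L + C * (1 + H)) := by gcongr
    calc Real.exp ((1 + 12) * L) * (‖Zt (1 / 2 + (((1 : ℝ) : ℂ) + t * I))‖ *
          ‖Pg (1 / 2 + (((1 : ℝ) : ℂ) + t * I))‖)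
        ≤ Real.exp ((1 + 12) * L) * ((12 * t ^ 2) * (P * Real.exp (L + C))) := by gcongr
      _ = P * (3 * t * Real.exp C) * (4 * t) * Real.exp (14 * L) := by
          have : Real.exp (14 * L) = Real.exp ((1 + 12) * L) * Real.exp L := by
            rw [← Real.exp_add]; congr 1; ring
          rw [this, Real.exp_add L C]; ring
      _ ≤ P * (3 * B * t * Real.exp (4 * η * L) * Real.exp (δ * L + C * (1 + H))) *
          Real.exp (4 * L) * Real.exp (14 * L) := by gcongr
      _ = V * Real.exp (18 * L) := by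
          have : Real.exp (18 * L) = Real.exp (4 * L) * Real.exp (14 * L) := by
            rw [← Real.exp_add]; congr 1; ring
          rw [this, hV]; ring
      _ ≤ V * Real.exp (20 * L) := by
          refine mul_le_mul_of_nonneg_left (Real.exp_le_exp.2 ?_) hV0.le
          linarith
  have hres := gauss_strip Fx_diff hδ hH1 hV0.le (by positivity : 0 ≤ 20 * L) hside htop (t * I)
    (by simp; exact hδ.le) (by simp)
  rw [hFx _ (by simp)] at hres
  have hK : 20 * L / H ^ 2 * (δ ^ 2 + 1) ≤ η * L := by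
    have h6 : δ ^ 2 + 1 ≤ 2 := by nlinarith
    have h7 : 40 / η ≤ H ^ 2 := by
      rw [hH]
      have : 0 < 40 / η := by positivity
      nlinarith
    rw [div_le_iff₀ hη] at h7
    rw [div_mul_eq_mul_div, div_le_iff₀ (by positivity)]
    have h8 : 20 * L * (δ ^ 2 + 1) ≤ 20 * L * 2 := by gcongr
    nlinarith
  have hZfin : ‖Zt (1 / 2 + t * I)‖ ≤ D * t * Real.exp ((δ / 2 + 3 * η) * Real.log t) := by
    have h1 : ‖Zt (1 / 2 + t * I)‖ * P ≤ (D * t * Real.exp ((δ / 2 + 3 * η) * Real.log t)) * P := by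
      refine hres.trans ?_
      calc V * Real.exp (20 * L / H ^ 2 * (δ ^ 2 + 1)) ≤ V * Real.exp (η * L) := by gcongr
        _ = D * t * (Real.exp (4 * η * L) * Real.exp (δ * L) * Real.exp (η * L)) * P := by
            rw [hV, hD, Real.exp_add]; ring
        _ ≤ D * t * Real.exp ((δ / 2 + 3 * η) * Real.log t) * P := by
            have h2 : Real.exp (4 * η * L) * Real.exp (δ * L) * Real.exp (η * L) ≤
                Real.exp ((δ / 2 + 3 * η) * Real.log t) := by
              rw [← Real.exp_add, ← Real.exp_add]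
              apply Real.exp_le_exp.2
              have h3 : Real.log t = 2 * L := by rw [hL]; ring
              rw [h3]
              have : 0 < η * L := by positivity
              linarith
            gcongr
    exact le_of_mul_le_mul_right h1 hP0
  have hne1 : (1 / 2 + t * I : ℂ) ≠ 1 := by
    intro h0
    have := congrArg re h0
    simp at this
  rw [← Pool.Agent.H306R2.zeta_eq_pos (s := 1 / 2 + t * I) (by simp) hne1, norm_mul] at hZfin
  have ht : t ≤ ‖(1 / 2 + t * I - 1 : ℂ)‖ := by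
    have := Complex.abs_im_le_norm (1 / 2 + t * I - 1 : ℂ)
    have e : (1 / 2 + t * I - 1 : ℂ).im = t := by simp
    rw [e, abs_of_pos ht0] at this
    exact this
  have hfin : t * ‖riemannZeta (1 / 2 + t * I)‖ ≤ t * (D * Real.exp ((δ / 2 + 3 * η) * Real.log t)) := by
    calc t * ‖riemannZeta (1 / 2 + t * I)‖ ≤ ‖(1 / 2 + t * I - 1 : ℂ)‖ * ‖riemannZeta (1 / 2 + t * I)‖ := by
          gcongr
      _ ≤ _ := hZfin
      _ = _ := by ring
  exact le_of_mul_le_mul_left hfin ht0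

/-- the Lindelöf hypothesis holds if for each `ε` all but finitely many zeros are in `Re s ≤ 1/2 + ε` -/
theorem lh_of_few (h : ∀ ε > 0, ∃ T : ℝ, ∀ s : ℂ, riemannZeta s = 0 → T ≤ |s.im| → s.re ≤ 1 / 2 + ε) :
    LHyp := by
  intro ε hε
  set e1 : ℝ := min ε 1 with he1
  have he0 : 0 < e1 := lt_min hε one_pos
  have he2 : e1 ≤ 1 := min_le_right _ _
  have he3 : e1 ≤ ε := min_le_left _ _
  obtain ⟨T0, hT0⟩ := h (e1 / 8 / 2) (by positivity)
  obtain ⟨T, D, hT1, hD0, hT⟩ := lh_large (δ := e1 / 8) (η := e1 / 8) (T0 := T0) (by positivity) (by linarith)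
    (by positivity) hT0
  have hcont : ContinuousOn (fun t : ℝ => ‖riemannZeta (1 / 2 + t * I)‖) (Icc 1 T) := by
    intro t ht
    apply ContinuousAt.continuousWithinAt
    have h1 : DifferentiableAt ℂ riemannZeta (1 / 2 + t * I) := by
      apply differentiableAt_riemannZeta
      intro h0
      have := congrArg re h0
      simp at this
    have h2 : ContinuousAt (fun t : ℝ => (1 / 2 + t * I : ℂ)) t := by fun_prop
    exact (ContinuousAt.comp (f := fun t : ℝ => (1 / 2 + t * I : ℂ)) h1.continuousAt h2).norm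
  obtain ⟨M, hM⟩ := isCompact_Icc.exists_bound_of_continuousOn hcont
  have hM' : ∀ t ∈ Icc 1 T, ‖riemannZeta (1 / 2 + t * I)‖ ≤ M := by
    intro t ht
    have := hM t ht
    rwa [norm_norm] at this
  have hM0 : 0 ≤ M := (norm_nonneg _).trans (hM' 1 ⟨le_rfl, hT1⟩)
  refine ⟨max D M, fun t ht => ?_⟩
  have ht0 : 0 < t := by linarith
  have hlog : 0 ≤ Real.log t := Real.log_nonneg ht
  have hpow : 1 ≤ t ^ ε := Real.one_le_rpow ht hε.le
  rcases le_total T t with h1 | h1
  · refine (hT t h1).trans ?_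
    have h2 : Real.exp ((e1 / 8 / 2 + 3 * (e1 / 8)) * Real.log t) ≤ t ^ ε := by
      rw [Real.rpow_def_of_pos ht0]
      apply Real.exp_le_exp.2
      nlinarith
    exact mul_le_mul (le_max_left _ _) h2 (Real.exp_pos _).le (hD0.trans (le_max_left _ _))
  · refine (hM' t ⟨ht, h1⟩).trans ?_
    calc M = M * 1 := (mul_one _).symm
      _ ≤ max D M * t ^ ε := mul_le_mul (le_max_right _ _) hpow zero_le_one (hM0.trans (le_max_right _ _))

end Pool.Agent.Helper68.JE
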