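import Pool.Agent.Helper68.JE.LhFew
import Pool.Agent.Helper68.JE.GrFew

/-!
`ζ(s) = O(|t|^ε)` uniformly in `Re s ≥ σ`, for all `σ > 1/2`, is the Lindelöf hypothesis.
-/

set_option autoImplicit false
set_option maxHeartbeats 4000000

open Complex Filter Topology Set Metric
open Pool.Agent.H306R2 (Zt)
open Pool.Agent.Helper85.LG (Pg Pg_diffAt Pg_ne xi_eq Reg reg_abs zeta_two_sided)
open Pool.Agent.Helper85.DQ (Fx Fx_diff Fx_even Fx_conj ld_Pg xi_crude gauss_strip growth)

namespace Pool.Agent.Helper68.JE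

/-- the bound at large heights -/
lemma lh_large' {δ η B : ℝ} (hδ : 0 < δ) (hδ1 : δ ≤ 1 / 8) (hη : 0 < η) (hB1 : 1 ≤ B)
    (h : ∀ y : ℝ, 1 ≤ y → ‖riemannZeta (1 / 2 + ((δ : ℂ) + y * I))‖ ≤ B * y ^ η) :
    ∃ T D : ℝ, 1 ≤ T ∧ 0 ≤ D ∧ ∀ t : ℝ, T ≤ t →
      ‖riemannZeta (1 / 2 + t * I)‖ ≤ D * Real.exp ((δ / 2 + 3 * η) * Real.log t) := by
  obtain ⟨T1, hT1⟩ : ∃ T1 : ℝ, T1 = 2 := ⟨2, rfl⟩
  obtain ⟨C, hC1, hC⟩ := ld_Pg
  set H : ℝ := 40 / η + 1 with hH
  have hH1 : 1 ≤ H := by
    rw [hH]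
    have : 0 < 40 / η := by positivity
    linarith
  obtain ⟨T2, hT2, hPg⟩ := hC 2 H
  obtain ⟨T3, hT3, hcr⟩ := xi_crude (y0 := 3 / 4) (ρ1 := 1) (by norm_num) (reg_abs (by norm_num)) (by norm_num)
    (Y := 1) (by norm_num) le_rfl H
  set D : ℝ := 3 * B * Real.exp (C * (1 + H)) with hD
  have hD0 : 0 < D := by positivity
  refine ⟨max (max T1 T2) (max T3 (2 * H + 2 * T1 + 3)), D, hT2.trans ((le_max_right _ _).trans (le_max_left _ _)),
    hD0.le, fun t hT => ?_⟩
  have ht1 : T1 ≤ t := ((le_max_left _ _).trans (le_max_left _ _)).trans hT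
  have ht2 : T2 ≤ t := ((le_max_right _ _).trans (le_max_left _ _)).trans hT
  have ht3 : T3 ≤ t := ((le_max_left _ _).trans (le_max_right _ _)).trans hT
  have ht4 : 2 * H + 2 * T1 + 3 ≤ t := ((le_max_right _ _).trans (le_max_right _ _)).trans hT
  have ht9 : 9 ≤ t := by linarith
  have ht0 : 0 < t := by linarith
  set L : ℝ := 1 / 2 * Real.log t with hL
  have hlog : 1 ≤ Real.log t := by
    rw [Real.le_log_iff_exp_le ht0]
    have := Real.exp_one_lt_d9
    linarith
  have hL0 : 0 < L := by rw [hL]; linarith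
  have hexpL : Real.exp (2 * L) = t := by
    rw [hL, show 2 * (1 / 2 * Real.log t) = Real.log t by ring, Real.exp_log ht0]
  set P : ℝ := ‖Pg (1 / 2 + t * I)‖ with hP
  have hP0 : 0 < P := norm_pos_iff.2 (Pg_ne (by simp))
  -- the gamma factor
  have hpg : ∀ z : ℂ, 1 / 2 ≤ z.re → z.re ≤ 2 → |z.im - t| ≤ H →
      ‖Pg z‖ ≤ P * Real.exp (L * (z.re - 1 / 2) + C * ‖z - (1 / 2 + t * I)‖) := by
    intro z h1 h2 h3
    have hz1 : (1 / 2 + t * I : ℂ) ∈ {z : ℂ | 1 / 2 ≤ z.re ∧ z.re ≤ 2 ∧ |z.im - t| ≤ H} := by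
      refine ⟨?_, ?_, ?_⟩
      · simp
      · simp; norm_num
      · simp; linarith
    have hs := (conv_box t H).segment_subset hz1 (show z ∈ _ from ⟨h1, h2, h3⟩)
    have hg := growth (g := Pg) (z1 := 1 / 2 + t * I) (z2 := z) (L := L) (M := C)
      (fun z hz => Pg_diffAt (by linarith [(hs hz).1]))
      (fun z hz => Pg_ne (by linarith [(hs hz).1]))
      (fun z hz => (hPg t z ht2 (by linarith [(hs hz).1]) (hs hz).2.1 (hs hz).2.2).1)
    have e : (1 / 2 + t * I : ℂ).re = 1 / 2 := by simp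
    rw [e] at hg
    exact hg
  set V : ℝ := P * (3 * B * t * Real.exp (4 * η * L)) * Real.exp (δ * L + C * (1 + H)) with hV
  have hV0 : 0 < V := by positivity
  have hFx : ∀ w : ℂ, -(1 / 2) < w.re → ‖Fx w‖ = ‖Zt (1 / 2 + w)‖ * ‖Pg (1 / 2 + w)‖ := by
    intro w hw
    unfold Fx
    rw [xi_eq (by simp; linarith), norm_mul]
  -- the sides
  have hside0 : ∀ y : ℝ, |y - t| ≤ H → ‖Fx ((δ : ℂ) + y * I)‖ ≤ V := by
    intro y hy
    have hyt := abs_le.1 hy
    have hy0 : 0 < y := by linarith [hyt.1]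
    have hy1 : T1 ≤ |y| := by rw [abs_of_pos hy0]; linarith [hyt.1]
    have hy2 : |y| ≤ 2 * t := by rw [abs_of_pos hy0]; linarith [hyt.2]
    have hlogy : Real.log |y| ≤ 4 * L := by
      have h1 : |y| ≤ t ^ 2 := by nlinarith
      have h2 := Real.log_le_log (by linarith) h1
      rw [Real.log_pow] at h2
      push_cast at h2
      rw [hL]
      linarith
    rw [hFx _ (by simp; linarith)]
    have hZ : ‖Zt (1 / 2 + ((δ : ℂ) + y * I))‖ ≤ 3 * B * t * Real.exp (4 * η * L) := by
      rw [abs_of_pos hy0] at hlogy hy1 hy2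
      have h1 := h y (by linarith)
      have hne : (1 / 2 + ((δ : ℂ) + y * I)) ≠ 1 := by
        intro h0
        have := congrArg im h0
        simp at this
        linarith
      rw [← Pool.Agent.H306R2.zeta_eq_pos (by simp; linarith) hne, norm_mul]
      have e : (1 / 2 + ((δ : ℂ) + y * I) - 1 : ℂ) = ((δ - 1 / 2 : ℝ) : ℂ) + y * I := by
        push_cast; ring
      have h2 : ‖(1 / 2 + ((δ : ℂ) + y * I) - 1 : ℂ)‖ ≤ 3 * t := by
        rw [e]
        refine (norm_add_le _ _).trans ?_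
        rw [norm_mul, norm_I, mul_one, Complex.norm_real, Complex.norm_real, Real.norm_eq_abs,
          Real.norm_eq_abs, abs_of_pos hy0, abs_of_nonpos (by linarith : δ - 1 / 2 ≤ 0)]
        linarith
      have h4 : y ^ η ≤ Real.exp (4 * η * L) := by
        rw [Real.rpow_def_of_pos hy0]
        exact Real.exp_le_exp.2 (by nlinarith)
      calc ‖(1 / 2 + ((δ : ℂ) + y * I) - 1 : ℂ)‖ * ‖riemannZeta (1 / 2 + ((δ : ℂ) + y * I))‖
          ≤ (3 * t) * (B * Real.exp (4 * η * L)) :=
            mul_le_mul h2 (h1.trans (by gcongr)) (norm_nonneg _) (by positivity)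
        _ = _ := by ring
    have hG : ‖Pg (1 / 2 + ((δ : ℂ) + y * I))‖ ≤ P * Real.exp (δ * L + C * (1 + H)) := by
      refine (hpg _ (by simp; linarith) (by simp; linarith) (by simpa using hy)).trans ?_
      refine mul_le_mul_of_nonneg_left (Real.exp_le_exp.2 ?_) hP0.le
      have e1 : (1 / 2 + ((δ : ℂ) + y * I) - (1 / 2 + t * I) : ℂ) = (δ : ℂ) + ((y - t : ℝ) : ℂ) * I := by
        push_cast; ring
      have e2 : ‖(δ : ℂ) + ((y - t : ℝ) : ℂ) * I‖ ≤ 1 + H := by
        refine (norm_add_le _ _).trans ?_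
        rw [norm_mul, norm_I, mul_one, Complex.norm_real, Complex.norm_real, Real.norm_eq_abs,
          Real.norm_eq_abs, abs_of_pos hδ]
        linarith
      have e3 : (1 / 2 + ((δ : ℂ) + y * I) : ℂ).re - 1 / 2 = δ := by simp
      rw [e1, e3]
      have e4 : C * ‖(δ : ℂ) + ((y - t : ℝ) : ℂ) * I‖ ≤ C * (1 + H) :=
        mul_le_mul_of_nonneg_left e2 (by linarith)
      linarith
    calc ‖Zt (1 / 2 + ((δ : ℂ) + y * I))‖ * ‖Pg (1 / 2 + ((δ : ℂ) + y * I))‖
        ≤ (3 * B * t * Real.exp (4 * η * L)) * (P * Real.exp (δ * L + C * (1 + H))) :=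
          mul_le_mul hZ hG (norm_nonneg _) (by positivity)
      _ = V := by rw [hV]; ring
  have hside : ∀ w : ℂ, |w.re| = δ → |w.im - t| ≤ H → ‖Fx w‖ ≤ V := by
    intro w h1 h2
    rcases le_total 0 w.re with h3 | h3
    · rw [abs_of_nonneg h3] at h1
      have h4 := hside0 w.im h2
      rw [← h1, Complex.re_add_im] at h4
      exact h4
    · rw [abs_of_nonpos h3] at h1
      have h4 := hside0 w.im h2
      have h5 : ((δ : ℂ) + w.im * I) = -(starRingEnd ℂ) w := by
        apply Complex.ext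
        · simp [h1]
        · simp
      rw [h5, Fx_even, Fx_conj, RCLike.norm_conj] at h4
      exact h4
  have htop : ∀ w : ℂ, |w.re| ≤ δ → |w.im - t| = H → ‖Fx w‖ ≤ V * Real.exp (20 * L) := by
    intro w h1 h2
    refine (hcr t w ht3 (by linarith) h2.le).trans ?_
    rw [hFx _ (by simp; norm_num)]
    have e0 : (1 / 2 + (((1 : ℝ) : ℂ) + t * I) : ℂ).re = 3 / 2 := by simp; norm_num
    have hZ : ‖Zt (1 / 2 + (((1 : ℝ) : ℂ) + t * I))‖ ≤ 12 * t ^ 2 := by
      refine (Pool.Agent.H306R2.Zt_norm_le (by rw [e0]; norm_num)).trans ?_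
      have h3 : ‖(1 / 2 + (((1 : ℝ) : ℂ) + t * I) : ℂ)‖ ≤ 3 / 2 + t := by
        have e : (1 / 2 + (((1 : ℝ) : ℂ) + t * I) : ℂ) = ((3 / 2 : ℝ) : ℂ) + t * I := by
          push_cast; ring
        rw [e]
        refine (norm_add_le _ _).trans ?_
        rw [norm_mul, norm_I, mul_one, Complex.norm_real, Complex.norm_real, Real.norm_eq_abs,
          Real.norm_eq_abs, abs_of_pos ht0, abs_of_pos (by norm_num : (0 : ℝ) < 3 / 2)]
      have h4 : (‖(1 / 2 + (((1 : ℝ) : ℂ) + t * I) : ℂ)‖ + 1) ^ 2 ≤ (2 * t) ^ 2 :=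
        pow_le_pow_left₀ (by positivity) (by linarith) 2
      linarith
    have hG : ‖Pg (1 / 2 + (((1 : ℝ) : ℂ) + t * I))‖ ≤ P * Real.exp (L + C) := by
      refine (hpg _ (by rw [e0]; norm_num) (by rw [e0]; norm_num) (by simp; linarith)).trans ?_
      refine mul_le_mul_of_nonneg_left (Real.exp_le_exp.2 ?_) hP0.le
      have e1 : (1 / 2 + (((1 : ℝ) : ℂ) + t * I) - (1 / 2 + t * I) : ℂ) = 1 := by push_cast; ring
      rw [e0, e1, norm_one]
      linarith
    have e13 : ((1 : ℝ) + 12) = 13 := by norm_num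
    have h4t : 4 * t ≤ Real.exp (4 * L) := by
      have : Real.exp (4 * L) = t * t := by
        have e : 4 * L = 2 * L + 2 * L := by ring
        rw [e, Real.exp_add, hexpL]
      rw [this]
      nlinarith
    have hBt : 3 * t * Real.exp (C) ≤ 3 * B * t * Real.exp (4 * η * L) * Real.exp (δ * L + C * (1 + H)) := by
      have h5 : 1 ≤ Real.exp (4 * η * L) := Real.one_le_exp (by positivity)
      have h6 : Real.exp C ≤ Real.exp (δ * L + C * (1 + H)) := by
        apply Real.exp_le_exp.2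
        have : 0 < δ * L := by positivity
        nlinarith
      calc 3 * t * Real.exp C = 3 * 1 * t * 1 * Real.exp C := by ring
        _ ≤ 3 * B * t * Real.exp (4 * η * L) * Real.exp (δ * L + C * (1 + H)) := by gcongr
    calc Real.exp ((1 + 12) * L) * (‖Zt (1 / 2 + (((1 : ℝ) : ℂ) + t * I))‖ *
          ‖Pg (1 / 2 + (((1 : ℝ) : ℂ) + t * I))‖)
        ≤ Real.exp ((1 + 12) * L) * ((12 * t ^ 2) * (P * Real.exp (L + C))) := by gcongr
      _ = P * (3 * t * Real.exp C) * (4 * t) * Real.exp (14 * L) := by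
          have : Real.exp (14 * L) = Real.exp ((1 + 12) * L) * Real.exp L := by
            rw [← Real.exp_add]; congr 1; ring
          rw [this, Real.exp_add L C]; ring
      _ ≤ P * (3 * B * t * Real.exp (4 * η * L) * Real.exp (δ * L + C * (1 + H))) *
          Real.exp (4 * L) * Real.exp (14 * L) := by gcongr
      _ = V * Real.exp (18 * L) := by
          have : Real.exp (18 * L) = Real.exp (4 * L) * Real.exp (14 * L) := by
            rw [← Real.exp_add]; congr 1; ring
          rw [this, hV]; ring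
      _ ≤ V * Real.exp (20 * L) := by
          refine mul_le_mul_of_nonneg_left (Real.exp_le_exp.2 ?_) hV0.le
          linarith
  have hres := gauss_strip Fx_diff hδ hH1 hV0.le (by positivity : 0 ≤ 20 * L) hside htop (t * I)
    (by simp; exact hδ.le) (by simp)
  rw [hFx _ (by simp)] at hres
  have hK : 20 * L / H ^ 2 * (δ ^ 2 + 1) ≤ η * L := by
    have h6 : δ ^ 2 + 1 ≤ 2 := by nlinarith
    have h7 : 40 / η ≤ H ^ 2 := by
      rw [hH]
      have : 0 < 40 / η := by positivity
      nlinarith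
    rw [div_le_iff₀ hη] at h7
    rw [div_mul_eq_mul_div, div_le_iff₀ (by positivity)]
    have h8 : 20 * L * (δ ^ 2 + 1) ≤ 20 * L * 2 := by gcongr
    nlinarith
  have hZfin : ‖Zt (1 / 2 + t * I)‖ ≤ D * t * Real.exp ((δ / 2 + 3 * η) * Real.log t) := by
    have h1 : ‖Zt (1 / 2 + t * I)‖ * P ≤ (D * t * Real.exp ((δ / 2 + 3 * η) * Real.log t)) * P := by
      refine hres.trans ?_
      calc V * Real.exp (20 * L / H ^ 2 * (δ ^ 2 + 1)) ≤ V * Real.exp (η * L) := by gcongr
        _ = D * t * (Real.exp (4 * η * L) * Real.exp (δ * L) * Real.exp (η * L)) * P := by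
            rw [hV, hD, Real.exp_add]; ring
        _ ≤ D * t * Real.exp ((δ / 2 + 3 * η) * Real.log t) * P := by
            have h2 : Real.exp (4 * η * L) * Real.exp (δ * L) * Real.exp (η * L) ≤
                Real.exp ((δ / 2 + 3 * η) * Real.log t) := by
              rw [← Real.exp_add, ← Real.exp_add]
              apply Real.exp_le_exp.2
              have h3 : Real.log t = 2 * L := by rw [hL]; ring
              rw [h3]
              have : 0 < η * L := by positivity
              linarith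
            gcongr
    exact le_of_mul_le_mul_right h1 hP0
  have hne1 : (1 / 2 + t * I : ℂ) ≠ 1 := by
    intro h0
    have := congrArg re h0
    simp at this
  rw [← Pool.Agent.H306R2.zeta_eq_pos (s := 1 / 2 + t * I) (by simp) hne1, norm_mul] at hZfin
  have ht : t ≤ ‖(1 / 2 + t * I - 1 : ℂ)‖ := by
    have := Complex.abs_im_le_norm (1 / 2 + t * I - 1 : ℂ)
    have e : (1 / 2 + t * I - 1 : ℂ).im = t := by simp
    rw [e, abs_of_pos ht0] at this
    exact this
  have hfin : t * ‖riemannZeta (1 / 2 + t * I)‖ ≤ t * (D * Real.exp ((δ / 2 + 3 * η) * Real.log t)) := by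
    calc t * ‖riemannZeta (1 / 2 + t * I)‖ ≤ ‖(1 / 2 + t * I - 1 : ℂ)‖ * ‖riemannZeta (1 / 2 + t * I)‖ := by
          gcongr
      _ ≤ _ := hZfin
      _ = _ := by ring
  exact le_of_mul_le_mul_left hfin ht0


theorem lh_of_gr (h : Gr (1 / 2)) : LHyp := by
  intro ε hε
  set e1 : ℝ := min ε 1 with he1
  have he0 : 0 < e1 := lt_min hε one_pos
  have he2 : e1 ≤ 1 := min_le_right _ _
  have he3 : e1 ≤ ε := min_le_left _ _
  obtain ⟨C, hC⟩ := h (1 / 2 + e1 / 8) (by linarith) (e1 / 8) (by positivity)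
  obtain ⟨T, D, hT1, hD0, hT⟩ := lh_large' (δ := e1 / 8) (η := e1 / 8) (B := max C 1) (by positivity)
    (by linarith) (by positivity) (le_max_right _ _) (fun y hy => by
      have h1 := hC (1 / 2 + (((e1 / 8 : ℝ) : ℂ) + y * I)) (by simp) (by simpa using hy)
      have h2 : (1 / 2 + (((e1 / 8 : ℝ) : ℂ) + y * I)).im = y := by simp
      rw [h2] at h1
      refine h1.trans ?_
      have h3 : 0 ≤ y ^ (e1 / 8) := by positivity
      exact mul_le_mul_of_nonneg_right (le_max_left _ _) h3)
  have hcont : ContinuousOn (fun t : ℝ => ‖riemannZeta (1 / 2 + t * I)‖) (Icc 1 T) := by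
    intro t ht
    apply ContinuousAt.continuousWithinAt
    have h1 : DifferentiableAt ℂ riemannZeta (1 / 2 + t * I) := by
      apply differentiableAt_riemannZeta
      intro h0
      have := congrArg re h0
      simp at this
    have h2 : ContinuousAt (fun t : ℝ => (1 / 2 + t * I : ℂ)) t := by fun_prop
    exact (ContinuousAt.comp (f := fun t : ℝ => (1 / 2 + t * I : ℂ)) h1.continuousAt h2).norm
  obtain ⟨M, hM⟩ := isCompact_Icc.exists_bound_of_continuousOn hcont
  have hM' : ∀ t ∈ Icc 1 T, ‖riemannZeta (1 / 2 + t * I)‖ ≤ M := by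
    intro t ht
    have := hM t ht
    rwa [norm_norm] at this
  have hM0 : 0 ≤ M := (norm_nonneg _).trans (hM' 1 ⟨le_rfl, hT1⟩)
  refine ⟨max D M, fun t ht => ?_⟩
  have ht0 : 0 < t := by linarith
  have hlog : 0 ≤ Real.log t := Real.log_nonneg ht
  have hpow : 1 ≤ t ^ ε := Real.one_le_rpow ht hε.le
  rcases le_total T t with h1 | h1
  · refine (hT t h1).trans ?_
    have h2 : Real.exp ((e1 / 8 / 2 + 3 * (e1 / 8)) * Real.log t) ≤ t ^ ε := by
      rw [Real.rpow_def_of_pos ht0]
      apply Real.exp_le_exp.2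
      nlinarith
    exact mul_le_mul (le_max_left _ _) h2 (Real.exp_pos _).le (hD0.trans (le_max_left _ _))
  · refine (hM' t ⟨ht, h1⟩).trans ?_
    calc M = M * 1 := (mul_one _).symm
      _ ≤ max D M * t ^ ε := mul_le_mul (le_max_right _ _) hpow zero_le_one (hM0.trans (le_max_right _ _))

/-- the maximum principle in a rectangle with a Gaussian factor -/
lemma gauss_rect {F : ℂ → ℂ} {r H t V K : ℝ} (hr : 0 < r) (hH : 1 ≤ H)
    (hF : ∀ w : ℂ, |w.re| ≤ r → |w.im - t| ≤ H → DifferentiableAt ℂ F w)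
    (hV : 0 ≤ V) (hK : 0 ≤ K)
    (hside : ∀ w : ℂ, |w.re| = r → |w.im - t| ≤ H → ‖F w‖ ≤ V)
    (htop : ∀ w : ℂ, |w.re| ≤ r → |w.im - t| = H → ‖F w‖ ≤ V * Real.exp K) :
    ∀ w : ℂ, |w.re| ≤ r → |w.im - t| ≤ 1 → ‖F w‖ ≤ V * Real.exp (K / H ^ 2 * (r ^ 2 + 1)) := by
  intro w hw1 hw2
  set lam : ℝ := K / H ^ 2 with hlam
  have hlam0 : 0 ≤ lam := by positivity
  set f : ℂ → ℂ := fun z => F z * cexp (lam * (z - t * I) ^ 2) with hf
  have hfn : ∀ z : ℂ, ‖f z‖ = ‖F z‖ * Real.exp (lam * (z.re ^ 2 - (z.im - t) ^ 2)) := by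
    intro z
    rw [hf]
    simp only
    rw [norm_mul, Complex.norm_exp]
    congr 2
    simp [pow_two]
  set U : Set ℂ := Ioo (-r) r ×ℂ Ioo (t - H) (t + H) with hU
  have hUb : Bornology.IsBounded U :=
    (Metric.isBounded_Ioo (-r) r).reProdIm (Metric.isBounded_Ioo (t - H) (t + H))
  have hcl' : closure U = Icc (-r) r ×ℂ Icc (t - H) (t + H) := by
    rw [hU, Complex.closure_reProdIm, closure_Ioo (by linarith), closure_Ioo (by linarith)]
  have hfd : DiffContOnCl ℂ f U := by
    refine DifferentiableOn.diffContOnCl ?_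
    rw [hcl']
    intro z hz
    rw [Complex.mem_reProdIm] at hz
    have h1 := hF z (abs_le.2 hz.1) (by
      rw [abs_le]
      constructor <;> linarith [hz.2.1, hz.2.2])
    exact (h1.mul (by fun_prop)).differentiableWithinAt
  have hfr : ∀ z ∈ frontier U, ‖f z‖ ≤ V * Real.exp (lam * r ^ 2) := by
    intro z hz
    rw [hU, Complex.frontier_reProdIm, closure_Ioo (by linarith), closure_Ioo (by linarith),
      frontier_Ioo (by linarith), frontier_Ioo (by linarith)] at hz
    rw [hfn]
    rcases hz with hz | hz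
    · rw [Complex.mem_reProdIm] at hz
      obtain ⟨h1, h2⟩ := hz
      have h3 : |z.re| ≤ r := abs_le.2 h1
      have h4 : |z.im - t| = H := by
        rcases h2 with h2 | h2
        · rw [h2]; simp; linarith
        · rw [mem_singleton_iff] at h2; rw [h2]; simp; linarith
      have h5 := htop z h3 h4
      have h6 : z.re ^ 2 ≤ r ^ 2 := by rw [← sq_abs]; gcongr
      have h7 : (z.im - t) ^ 2 = H ^ 2 := by rw [← sq_abs, h4]
      calc ‖F z‖ * Real.exp (lam * (z.re ^ 2 - (z.im - t) ^ 2))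
          ≤ V * Real.exp K * Real.exp (lam * (r ^ 2 - H ^ 2)) := by rw [h7]; gcongr
        _ = V * Real.exp (lam * r ^ 2) := by
            rw [mul_assoc, ← Real.exp_add]
            congr 2
            rw [hlam]
            field_simp
            ring
    · rw [Complex.mem_reProdIm] at hz
      obtain ⟨h1, h2⟩ := hz
      have h3 : |z.re| = r := by
        rcases h1 with h1 | h1
        · rw [h1, abs_neg, abs_of_pos hr]
        · rw [mem_singleton_iff] at h1; rw [h1, abs_of_pos hr]
      have h4 : |z.im - t| ≤ H := by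
        rw [abs_le]
        constructor <;> linarith [h2.1, h2.2]
      have h5 := hside z h3 h4
      have h6 : z.re ^ 2 = r ^ 2 := by rw [← sq_abs, h3]
      have h7 : lam * (z.re ^ 2 - (z.im - t) ^ 2) ≤ lam * r ^ 2 := by
        rw [h6]
        gcongr
        linarith [sq_nonneg (z.im - t)]
      gcongr
  have hcl : w ∈ closure U := by
    rw [hcl', Complex.mem_reProdIm]
    rw [abs_le] at hw2
    exact ⟨abs_le.1 hw1, by constructor <;> linarith [hw2.1, hw2.2]⟩
  have h := Complex.norm_le_of_forall_mem_frontier_norm_le hUb hfd hfr hcl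
  rw [hfn] at h
  have h2 : 0 ≤ w.re ^ 2 := sq_nonneg _
  have h3 : (w.im - t) ^ 2 ≤ 1 := by rw [← sq_abs]; nlinarith [abs_nonneg (w.im - t)]
  calc ‖F w‖ = ‖F w‖ * Real.exp (lam * (w.re ^ 2 - (w.im - t) ^ 2)) *
        Real.exp (-(lam * (w.re ^ 2 - (w.im - t) ^ 2))) := by
        rw [mul_assoc, ← Real.exp_add]; simp
    _ ≤ V * Real.exp (lam * r ^ 2) * Real.exp (-(lam * (w.re ^ 2 - (w.im - t) ^ 2))) := by gcongr
    _ = V * Real.exp (lam * r ^ 2 - lam * (w.re ^ 2 - (w.im - t) ^ 2)) := by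
        rw [mul_assoc, ← Real.exp_add]; rfl
    _ ≤ _ := by
        refine mul_le_mul_of_nonneg_left (Real.exp_le_exp.2 ?_) hV
        nlinarith

/-- the Lindelöf hypothesis gives the bound in the half-plane -/
theorem gr_of_lh (h : LHyp) : Gr (1 / 2) := by
  intro σ hσ ε hε
  obtain ⟨C0, hC0⟩ := h (ε / 4) (by positivity)
  obtain ⟨B, hB1, hB⟩ := zeta_two_sided (σ := 2) (by norm_num)
  set C : ℝ := |C0| with hC
  have hC' : ∀ t : ℝ, 1 ≤ t → ‖riemannZeta (1 / 2 + t * I)‖ ≤ C * t ^ (ε / 4) := fun t ht =>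
    (hC0 t ht).trans (mul_le_mul_of_nonneg_right (le_abs_self _) (by positivity))
  have hCn : 0 ≤ C := abs_nonneg _
  clear_value C
  set H : ℝ := 40 / ε + 1 with hH
  have hH1 : 1 ≤ H := by
    rw [hH]
    have : 0 < 40 / ε := by positivity
    linarith
  set T : ℝ := 2 * H + 4 with hT
  -- bounded heights
  have hK : IsCompact (Icc (1 / 2) 2 ×ℂ Icc 1 T) := isCompact_Icc.reProdIm isCompact_Icc
  have hcont : ContinuousOn (fun s : ℂ => ‖riemannZeta s‖) (Icc (1 / 2) 2 ×ℂ Icc 1 T) := by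
    intro s hs
    apply ContinuousAt.continuousWithinAt
    rw [Complex.mem_reProdIm] at hs
    apply ContinuousAt.norm
    apply DifferentiableAt.continuousAt (𝕜 := ℂ)
    apply differentiableAt_riemannZeta
    intro h0
    rw [h0] at hs
    have := hs.2.1
    simp at this
    linarith
  obtain ⟨M, hM⟩ := hK.exists_bound_of_continuousOn hcont
  -- large heights
  have hbig : ∀ s : ℂ, 1 / 2 ≤ s.re → s.re ≤ 2 → T ≤ s.im →
      ‖riemannZeta s‖ ≤ 2 * (C + B) * s.im ^ ε := by
    intro s h1 h2 h3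
    set t : ℝ := s.im with ht
    have ht4 : 4 ≤ t := by linarith
    have ht0 : 0 < t := by linarith
    have hlog : 1 ≤ Real.log t := by
      rw [Real.le_log_iff_exp_le ht0]
      have := Real.exp_one_lt_d9
      linarith
    set V : ℝ := (C + B) * Real.exp (ε / 2 * Real.log t) with hV
    have hV1 : 1 ≤ V := by
      have : 1 ≤ Real.exp (ε / 2 * Real.log t) := Real.one_le_exp (by positivity)
      rw [hV]
      nlinarith
    have hpow : ∀ y : ℝ, |y - t| ≤ H → 1 ≤ y ∧ y ^ (ε / 4) ≤ Real.exp (ε / 2 * Real.log t) := by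
      intro y hy
      have hy' := abs_le.1 hy
      have hy1 : 1 ≤ y := by linarith [hy'.1]
      refine ⟨hy1, ?_⟩
      have hlogy : Real.log y ≤ 2 * Real.log t := by
        have h1 : y ≤ t ^ 2 := by nlinarith [hy'.2]
        have h2 := Real.log_le_log (by linarith) h1
        rw [Real.log_pow] at h2
        push_cast at h2
        exact h2
      rw [Real.rpow_def_of_pos (by linarith)]
      apply Real.exp_le_exp.2
      nlinarith
    have hres := gauss_rect (F := fun w => riemannZeta (5 / 4 + w)) (r := 3 / 4) (H := H) (t := t) (V := V)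
      (K := 5 * Real.log t) (by norm_num) hH1 ?_ (by linarith) (by positivity) ?_ ?_ (s - 5 / 4) ?_ ?_
    · have e : (5 / 4 + (s - 5 / 4) : ℂ) = s := by ring
      rw [e] at hres
      refine hres.trans ?_
      have hKK : 5 * Real.log t / H ^ 2 * ((3 / 4) ^ 2 + 1) ≤ ε / 2 * Real.log t := by
        have h7 : 40 / ε ≤ H ^ 2 := by
          rw [hH]
          have : 0 < 40 / ε := by positivity
          nlinarith
        rw [div_le_iff₀ hε] at h7
        rw [div_mul_eq_mul_div, div_le_iff₀ (by positivity)]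
        nlinarith
      have h8 : Real.exp (ε / 2 * Real.log t) * Real.exp (ε / 2 * Real.log t) = t ^ ε := by
        rw [← Real.exp_add, Real.rpow_def_of_pos ht0]; congr 1; ring
      calc V * Real.exp (5 * Real.log t / H ^ 2 * ((3 / 4) ^ 2 + 1))
          ≤ V * Real.exp (ε / 2 * Real.log t) := by gcongr
        _ = (C + B) * t ^ ε := by rw [hV, mul_assoc, h8]
        _ ≤ 2 * (C + B) * t ^ ε := by
            have : 0 ≤ (C + B) * t ^ ε := by positivity
            linarith
    · intro w hw1 hw2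
      have h4 : DifferentiableAt ℂ riemannZeta (5 / 4 + w) := by
        apply differentiableAt_riemannZeta
        intro h0
        have := congrArg im h0
        simp at this
        rw [this] at hw2
        have := (abs_le.1 hw2).1
        linarith
      exact DifferentiableAt.comp (f := fun w : ℂ => 5 / 4 + w) w h4 (by fun_prop)
    · intro w hw1 hw2
      obtain ⟨k1, k2⟩ := hpow w.im hw2
      rcases le_total 0 w.re with h4 | h4
      · rw [abs_of_nonneg h4] at hw1
        refine (hB (5 / 4 + w) (by simp; rw [hw1]; norm_num)).1.trans ?_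
        rw [hV]
        have : 1 ≤ Real.exp (ε / 2 * Real.log t) := Real.one_le_exp (by positivity)
        nlinarith
      · rw [abs_of_nonpos h4] at hw1
        have e : (5 / 4 + w : ℂ) = 1 / 2 + w.im * I := by
          have hre : w.re = -(3 / 4) := by linarith
          apply Complex.ext
          · simp [hre]; norm_num
          · simp
        rw [e]
        refine (hC' w.im k1).trans ?_
        rw [hV]
        have h5 : 0 ≤ w.im ^ (ε / 4) := by positivity
        calc C * w.im ^ (ε / 4) ≤ (C + B) * w.im ^ (ε / 4) := by gcongr; linarith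
          _ ≤ _ := by gcongr
    · intro w hw1 hw2
      have hwim := abs_le.1 hw2.le
      have hwre := abs_le.1 hw1
      have him : (5 / 4 + w : ℂ).im = w.im := by simp
      have hre : (5 / 4 + w : ℂ).re = 5 / 4 + w.re := by simp
      have hne : (5 / 4 + w : ℂ) ≠ 1 := by
        intro h0
        have := congrArg im h0
        simp at this
        linarith
      have h4 : ‖riemannZeta (5 / 4 + w)‖ ≤ ‖Zt (5 / 4 + w)‖ := by
        rw [← Pool.Agent.H306R2.zeta_eq_pos (by rw [hre]; linarith) hne, norm_mul]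
        apply le_mul_of_one_le_left (norm_nonneg _)
        have h5 := Complex.abs_im_le_norm (5 / 4 + w - 1 : ℂ)
        have h6 : (5 / 4 + w - 1 : ℂ).im = w.im := by simp
        rw [h6] at h5
        have h7 := le_abs_self w.im
        linarith
      have h5 := Pool.Agent.H306R2.Zt_norm_le (s := 5 / 4 + w) (by rw [hre]; linarith)
      have h6 : ‖(5 / 4 + w : ℂ)‖ ≤ 2 + 2 * t := by
        refine (Complex.norm_le_abs_re_add_abs_im _).trans ?_
        rw [him, hre, abs_of_pos (by linarith : 0 < 5 / 4 + w.re), abs_of_pos (by linarith : 0 < w.im)]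
        linarith
      have h7 : (‖(5 / 4 + w : ℂ)‖ + 1) ^ 2 ≤ (3 * t) ^ 2 :=
        pow_le_pow_left₀ (by positivity) (by linarith) 2
      have h8 : Real.exp (5 * Real.log t) = t ^ 5 := by
        have : (5 * Real.log t) = ((5 : ℕ) : ℝ) * Real.log t := by norm_num
        rw [this, Real.exp_nat_mul, Real.exp_log ht0]
      have h9 : 27 * t ^ 2 ≤ t ^ 5 := by
        have : (27 : ℝ) ≤ t ^ 3 := by
          calc (27 : ℝ) ≤ 4 ^ 3 := by norm_num
            _ ≤ t ^ 3 := by gcongr
        calc 27 * t ^ 2 ≤ t ^ 3 * t ^ 2 := by gcongr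
          _ = _ := by ring
      rw [h8]
      calc ‖riemannZeta (5 / 4 + w)‖ ≤ 27 * t ^ 2 := by linarith
        _ ≤ 1 * t ^ 5 := by linarith
        _ ≤ V * t ^ 5 := by gcongr
    · have : (s - 5 / 4 : ℂ).re = s.re - 5 / 4 := by simp
      rw [this, abs_le]
      constructor <;> linarith
    · have : (s - 5 / 4 : ℂ).im = t := by simp [ht]
      rw [this]
      simp
  refine ⟨2 * (C + B) + |M|, fun s hs ht => ?_⟩
  have hpow : 1 ≤ s.im ^ ε := Real.one_le_rpow ht hε.le
  have hMn := abs_nonneg M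
  rcases le_total 2 s.re with h2 | h2
  · refine (hB s h2).1.trans ?_
    calc B ≤ (2 * (C + B) + |M|) * 1 := by linarith
      _ ≤ _ := mul_le_mul_of_nonneg_left hpow (by linarith)
  rcases le_total T s.im with h3 | h3
  · refine (hbig s (by linarith) h2 h3).trans ?_
    gcongr
    linarith
  · have h4 := hM s (by rw [Complex.mem_reProdIm]; exact ⟨⟨by linarith, h2⟩, ⟨ht, h3⟩⟩)
    rw [norm_norm] at h4
    refine h4.trans ?_
    calc M ≤ |M| := le_abs_self M
      _ ≤ (2 * (C + B) + |M|) * 1 := by linarith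
      _ ≤ _ := mul_le_mul_of_nonneg_left hpow (by linarith)

theorem gr_half_iff : Gr (1 / 2) ↔ LHyp := ⟨lh_of_gr, gr_of_lh⟩

end Pool.Agent.Helper68.JE
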