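import Pool.Agent.Helper68.JE.BrnFew
import Pool.Agent.Helper39.LG.RegZf

set_option autoImplicit false
set_option maxHeartbeats 4000000

open Complex Filter Topology Set Metric
open Pool.Agent.H306R2 (Zt)
open Pool.Agent.Helper85.LG (Lg RegAt Reg)

namespace Pool.Agent.Helper68.JE

open Pool.Agent.Helper39.LG (ld_diff Zt_two conv_seg)

lemma Zt_ne {θ T0 : ℝ} (hθ : 1 / 2 ≤ θ)
    (hz : ∀ s : ℂ, riemannZeta s = 0 → T0 ≤ |s.im| → s.re ≤ θ) :
    ∀ s : ℂ, θ < s.re → T0 ≤ |s.im| → Zt s ≠ 0 := by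
  intro s hs him
  rcases eq_or_ne s 1 with rfl | h1
  · rw [Pool.Agent.H306R2.Zt_one]; exact one_ne_zero
  · rw [← Pool.Agent.H306R2.zeta_eq_pos (by linarith) h1]
    exact mul_ne_zero (sub_ne_zero.2 h1) (fun h => absurd (hz s h him) (not_le.2 hs))

/-- pointwise bounds for `log Zt` and its derivatives in a zero-free half-plane -/
lemma local_bounds {θ σ T0 : ℝ} (hθ : 1 / 2 ≤ θ) (hθσ : θ < σ) (hσ : σ ≤ 1)
    (hz : ∀ s : ℂ, θ < s.re → T0 ≤ |s.im| → Zt s ≠ 0) {η : ℝ} (hη : 0 < η) :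
    ∃ T : ℝ, 2 ≤ T ∧ ∀ t : ℝ, T ≤ |t| → ∀ u : ℝ, σ ≤ u → u ≤ 2 →
      ‖Zt (u + t * I)‖ ≤ ‖Zt (2 + t * I)‖ * Real.exp (η * Real.log |t|) ∧
      ‖Zt (2 + t * I)‖ ≤ ‖Zt (u + t * I)‖ * Real.exp (η * Real.log |t|) ∧
      ‖logDeriv Zt (u + t * I)‖ ≤ η * Real.log |t| ∧
      ‖deriv (logDeriv Zt) (u + t * I)‖ ≤ η * Real.log |t| := by
  set δ : ℝ := σ - θ with hδ
  have hδ0 : 0 < δ := by rw [hδ]; linarith
  have hδ1 : δ ≤ 1 / 2 := by rw [hδ]; linarith
  set ρ : ℝ := δ / 2 with hρ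
  have hρ0 : 0 < ρ := by positivity
  set r : ℝ := 2 - θ - ρ with hr
  set η' : ℝ := η * ρ ^ 2 / 2 with hη'
  have hη'0 : 0 < η' := by positivity
  have hρ1 : ρ ≤ 1 := by rw [hρ]; linarith
  have hη'1 : η' ≤ η := by
    rw [hη']
    have : ρ ^ 2 ≤ 1 := pow_le_one₀ hρ0.le hρ1
    nlinarith
  obtain ⟨T, hT2, hT⟩ := branch_small (θ := θ) hθ (by linarith) hz (r := r) (by rw [hr]; linarith)
    (by rw [hr]; linarith) hη'0
  refine ⟨T, hT2, fun t ht u hu hu2 => ?_⟩
  obtain ⟨f, hfd, hfe, hfder, hfs⟩ := hT t ht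
  have ht2 : 2 ≤ |t| := hT2.trans ht
  have hlog : 0 ≤ Real.log |t| := Real.log_nonneg (by linarith)
  set L : ℝ := Real.log |t| with hL
  set w : ℂ := ((u - 2 : ℝ) : ℂ) with hw
  have hwn : ‖w‖ = 2 - u := by
    rw [hw, Complex.norm_real, Real.norm_eq_abs, abs_of_nonpos (by linarith)]; ring
  have hwr : ‖w‖ ≤ r := by rw [hwn, hr, hρ]; linarith
  have hwball : w ∈ ball (0 : ℂ) (2 - θ) := by
    rw [mem_ball_zero_iff, hwn]; linarith
  have hew : (2 + t * I + w : ℂ) = u + t * I := by rw [hw]; push_cast; ring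
  have hZ := hfe w hwball
  rw [hew] at hZ
  have hre := Complex.abs_re_le_norm (f w)
  have hfw := hfs w hwr
  rw [abs_le] at hre
  have hηL : η' * L ≤ η * L := mul_le_mul_of_nonneg_right hη'1 hlog
  -- Cauchy estimates
  have hsub : closedBall w ρ ⊆ ball (0 : ℂ) (2 - θ) := by
    intro z hz'
    rw [mem_closedBall, dist_eq_norm] at hz'
    rw [mem_ball_zero_iff]
    have : ‖z‖ ≤ ‖z - w‖ + ‖w‖ := by
      have e : z = (z - w) + w := by ring
      calc ‖z‖ = ‖(z - w) + w‖ := by rw [← e]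
        _ ≤ _ := norm_add_le _ _
    rw [hwn] at this
    have : ρ + (2 - u) < 2 - θ := by rw [hρ]; linarith
    linarith
  have hdc : DiffContOnCl ℂ f (ball w ρ) := by
    refine DifferentiableOn.diffContOnCl (hfd.mono ?_)
    rw [closure_ball _ hρ0.ne']
    exact hsub
  have hsph : ∀ z ∈ sphere w ρ, ‖f z‖ ≤ η' * L := by
    intro z hz'
    apply hfs
    rw [mem_sphere_iff_norm] at hz'
    have : ‖z‖ ≤ ‖z - w‖ + ‖w‖ := by
      have e : z = (z - w) + w := by ring
      calc ‖z‖ = ‖(z - w) + w‖ := by rw [← e]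
        _ ≤ _ := norm_add_le _ _
    rw [hwn, hz'] at this
    rw [hr, hρ] at *
    linarith
  have h1 := norm_iteratedDeriv_le_of_forall_mem_sphere_norm_le 1 hρ0 hdc hsph
  have h2 := norm_iteratedDeriv_le_of_forall_mem_sphere_norm_le 2 hρ0 hdc hsph
  rw [iteratedDeriv_one, (hfder w hwball).deriv, hew] at h1
  have hd2 : iteratedDeriv 2 f w = deriv (logDeriv Zt) (u + t * I) := by
    rw [iteratedDeriv_succ, iteratedDeriv_one]
    have hev : deriv f =ᶠ[𝓝 w] fun z => logDeriv Zt (2 + t * I + z) := by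
      filter_upwards [isOpen_ball.mem_nhds hwball] with z hz'
      exact (hfder z hz').deriv
    rw [hev.deriv_eq, ← hew]
    exact deriv_comp_const_add (logDeriv Zt) (2 + t * I : ℂ) w
  rw [hd2] at h2
  refine ⟨?_, ?_, ?_, ?_⟩
  · rw [hZ, norm_mul, Complex.norm_exp]
    apply mul_le_mul_of_nonneg_left _ (norm_nonneg _)
    apply Real.exp_le_exp.2
    linarith
  · rw [hZ, norm_mul, Complex.norm_exp, mul_assoc, ← Real.exp_add]
    apply le_mul_of_one_le_right (norm_nonneg _)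
    apply Real.one_le_exp
    linarith
  · refine h1.trans ?_
    rw [Nat.factorial_one, Nat.cast_one, one_mul, pow_one, div_le_iff₀ hρ0, hη']
    have hρ2 : ρ ^ 2 / 2 ≤ ρ := by nlinarith
    have : 0 ≤ η * L := by positivity
    nlinarith
  · refine h2.trans ?_
    rw [div_le_iff₀ (by positivity), hη']
    have : (Nat.factorial 2 : ℝ) = 2 := by norm_num [Nat.factorial]
    rw [this]
    nlinarith

/-- Regularity of `Zt` to the right of all but finitely many zeros. -/
theorem reg_few {θ T0 y0 : ℝ} (hz : ∀ s : ℂ, riemannZeta s = 0 → T0 ≤ |s.im| → s.re ≤ θ)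
    (hy0 : 0 < y0) (hy : θ - 1 / 2 < y0) : Reg y0 := by
  rcases lt_or_ge (1 / 2) y0 with h | h
  · exact Pool.Agent.Helper85.LG.reg_abs h
  set θ' : ℝ := max θ (1 / 2) with hθ'
  have hθ'1 : 1 / 2 ≤ θ' := le_max_right _ _
  set σ : ℝ := 1 / 2 + y0 with hσ
  have hθσ : θ' < σ := max_lt (by rw [hσ]; linarith) (by rw [hσ]; linarith)
  have hz' := Zt_ne (T0 := T0) hθ'1 (fun s hs him => (hz s hs him).trans (le_max_left _ _))
  intro ε hε
  obtain ⟨X1, hX1, hX1'⟩ := Pool.Agent.Helper85.LG.reg_abs (y0 := 1) (by norm_num) ε hε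
  obtain ⟨B, hB1, hB⟩ := Pool.Agent.Helper85.LG.zeta_two_sided (σ := 2) (by norm_num)
  set l : ℝ := Real.log (5 / 4) with hl
  have hl0 : 0 < l := Real.log_pos (by norm_num)
  set κ : ℝ := ε * y0 * l / 4 with hκ
  have hκ0 : 0 < κ := by positivity
  set η : ℝ := min (min (ε / 4) (κ / 6)) (1 / 2) with hη
  have hη0 : 0 < η := by rw [hη]; positivity
  have hη1 : η ≤ ε / 4 := (min_le_left _ _).trans (min_le_left _ _)
  have hη2 : η ≤ κ / 6 := (min_le_left _ _).trans (min_le_right _ _)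
  have hη3 : η ≤ 1 / 2 := min_le_right _ _
  obtain ⟨T, hT2, hT⟩ := local_bounds hθ'1 hθσ (by rw [hσ]; linarith) hz' hη0
  set X2 : ℝ := max (2 * T + 2 + 2 * |T0|) (max 216 (max (Real.exp (Real.log (4 * B ^ 4) / κ))
    (max (Real.exp (6 / (ε * y0))) (Real.exp (2 * Real.log B))))) with hX2
  refine ⟨max X1 X2, lt_of_lt_of_le hX1 (le_max_left _ _), fun x y hx hyy hxy => ?_⟩
  rcases le_or_gt 1 y with hy1 | hy1
  · refine hX1' x y hx hy1 ?_
    rcases hxy with h | h
    · exact Or.inl ((le_max_left _ _).trans h)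
    · exact Or.inr ((le_max_left _ _).trans h)
  have hXx : X2 ≤ x := by
    rcases hxy with h | h
    · exact (le_max_right _ _).trans h
    · exfalso
      have h1 : (216 : ℝ) ≤ X2 := (le_max_left _ _).trans (le_max_right _ _)
      have h2 : X2 ≤ y := (le_max_right _ _).trans h
      linarith
  have hxT' : 2 * T + 2 + 2 * |T0| ≤ x := (le_max_left _ _).trans hXx
  have hT0a := abs_nonneg T0
  have hT0b := le_abs_self T0
  have hxT : 2 * T + 2 ≤ x := by linarith
  have hx216 : 216 ≤ x := ((le_max_left _ _).trans (le_max_right _ _)).trans hXx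
  have hxa : Real.exp (Real.log (4 * B ^ 4) / κ) ≤ x :=
    (((le_max_left _ _).trans (le_max_right _ _)).trans (le_max_right _ _)).trans hXx
  have hxb : Real.exp (6 / (ε * y0)) ≤ x :=
    ((((le_max_left _ _).trans (le_max_right _ _)).trans (le_max_right _ _)).trans
      (le_max_right _ _)).trans hXx
  have hxc : Real.exp (2 * Real.log B) ≤ x :=
    ((((le_max_right _ _).trans (le_max_right _ _)).trans (le_max_right _ _)).trans
      (le_max_right _ _)).trans hXx
  have hx0 : 0 < x := by linarith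
  have hlx1 : Real.log (4 * B ^ 4) ≤ κ * Real.log x := by
    have := (Real.le_log_iff_exp_le hx0).2 hxa
    rw [div_le_iff₀ hκ0] at this
    linarith
  have hlx2 : 6 ≤ ε * y0 * Real.log x := by
    have := (Real.le_log_iff_exp_le hx0).2 hxb
    rw [div_le_iff₀ (by positivity)] at this
    linarith
  have hlx3 : 2 * Real.log B ≤ Real.log x := (Real.le_log_iff_exp_le hx0).2 hxc
  set ℓ : ℝ := Real.log x with hℓ
  have hℓ0 : 0 ≤ ℓ := Real.log_nonneg (by linarith)
  -- size of `Lg s`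
  have hy' : 0 < y := by linarith
  have hLg : ℓ / 2 ≤ Lg (1 / 2 + y + x * I) := by
    have h1 := Pool.Agent.Helper85.LG.Lg_lower (M := x / 2) (by positivity) hx hy'.le
      (Or.inl (by linarith))
    refine le_trans ?_ h1
    have h2 : x ≤ (x / 2) ^ 2 := by nlinarith
    have h3 := Real.log_le_log hx0 h2
    rw [Real.log_pow] at h3
    push_cast at h3
    linarith
  have hLg0 : 0 ≤ Lg (1 / 2 + y + x * I) := le_trans (by positivity) hLg
  set Λ : ℝ := Lg (1 / 2 + y + x * I) with hΛ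
  set s : ℂ := 1 / 2 + y + x * I with hs
  set u : ℝ := 1 / 2 + y with hu
  have hsu : s = u + x * I := by rw [hs, hu]; push_cast; ring
  have huσ : σ ≤ u := by rw [hσ, hu]; linarith
  have hu2 : u ≤ 2 := by rw [hu]; linarith
  have hmv : ∀ v : ℝ, s + v * I = u + ((x + v : ℝ) : ℂ) * I := by
    intro v; rw [hsu]; push_cast; ring
  have hlog2 : ∀ v : ℝ, |v| ≤ x / 2 → T ≤ |x + v| ∧ Real.log |x + v| ≤ 2 * ℓ ∧ |x + v| ≤ 3 / 2 * x := by
    intro v hv
    rw [abs_le] at hv
    have h1 : |x + v| = x + v := abs_of_nonneg (by linarith)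
    rw [h1]
    refine ⟨by linarith, ?_, by linarith⟩
    have h2 : x + v ≤ x ^ 2 := by nlinarith
    have h3 := Real.log_le_log (by linarith) h2
    rw [Real.log_pow] at h3
    push_cast at h3
    linarith
  have hbase := hT x (by rw [abs_of_pos hx0]; linarith) u huσ hu2
  rw [abs_of_pos hx0, ← hℓ, ← hsu] at hbase
  -- lower bound for `Zt s`
  have hZ2 := Zt_two hB1 hB x
  rw [abs_of_pos hx0] at hZ2
  have hexpx : Real.exp ℓ = x := Real.exp_log hx0
  have hZlow : Real.exp ((1 - η) * ℓ) ≤ B * ‖Zt s‖ := by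
    have h1 : x ≤ B * (‖Zt s‖ * Real.exp (η * ℓ)) :=
      hZ2.2.trans (mul_le_mul_of_nonneg_left hbase.2.1 (by linarith))
    have h2 : Real.exp ((1 - η) * ℓ) = x * Real.exp (-(η * ℓ)) := by
      nth_rewrite 1 [← hexpx]
      rw [← Real.exp_add]
      congr 1; ring
    rw [h2]
    calc x * Real.exp (-(η * ℓ)) ≤ (B * (‖Zt s‖ * Real.exp (η * ℓ))) * Real.exp (-(η * ℓ)) :=
          mul_le_mul_of_nonneg_right h1 (Real.exp_pos _).le
      _ = B * ‖Zt s‖ * (Real.exp (η * ℓ) * Real.exp (-(η * ℓ))) := by ring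
      _ = B * ‖Zt s‖ := by rw [← Real.exp_add]; simp
  refine ⟨?_, ?_, ?_, ?_⟩
  · intro τ hτ
    rw [abs_le] at hτ
    apply hz'
    · rw [hmv]
      simp
      linarith
    · rw [hmv]
      have e : ((u : ℂ) + ((x + τ : ℝ) : ℂ) * I).im = x + τ := by simp
      rw [e]
      exact le_trans (by linarith) (le_abs_self _)
  · refine hbase.2.2.1.trans ?_
    nlinarith
  · intro τ hτ
    have hS := conv_seg u (x - 1 / 2) (x + 1 / 2)
    have hmem : ∀ v : ℝ, |v| ≤ 1 / 2 →
        s + v * I ∈ {z : ℂ | z.re = u ∧ x - 1 / 2 ≤ z.im ∧ z.im ≤ x + 1 / 2} := by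
      intro v hv
      rw [abs_le] at hv
      rw [hmv]
      refine ⟨by simp, ?_, ?_⟩
      · simp; linarith
      · simp; linarith
    have h1 := hS.norm_image_sub_le_of_norm_deriv_le (f := logDeriv Zt) (C := η * (2 * ℓ))
      (x := s) (y := s + τ * I) ?_ ?_ ?_ ?_
    · rw [add_sub_cancel_left, norm_mul, norm_I, mul_one, Complex.norm_real, Real.norm_eq_abs] at h1
      have h2 : η * (2 * ℓ) ≤ ε * Λ := by nlinarith
      calc ‖logDeriv Zt (s + τ * I) - logDeriv Zt s‖ * y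
          ≤ ‖logDeriv Zt (s + τ * I) - logDeriv Zt s‖ * 1 :=
            mul_le_mul_of_nonneg_left hy1.le (norm_nonneg _)
        _ = ‖logDeriv Zt (s + τ * I) - logDeriv Zt s‖ := mul_one _
        _ ≤ η * (2 * ℓ) * |τ| := h1
        _ ≤ ε * Λ * |τ| := mul_le_mul_of_nonneg_right h2 (abs_nonneg _)
    · intro z hz2
      exact ld_diff (by rw [hz2.1]; linarith) (hz' z (by rw [hz2.1]; linarith)
        (le_trans (by linarith [hz2.2.1]) (le_abs_self _)))
    · intro z hz2
      obtain ⟨h1, h2, h3⟩ := hz2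
      have ez : z = u + ((x + (z.im - x) : ℝ) : ℂ) * I := by
        apply Complex.ext <;> simp [h1]
      have hv : |z.im - x| ≤ x / 2 := by
        rw [abs_le]; constructor <;> linarith
      obtain ⟨k1, k2, _⟩ := hlog2 _ hv
      have h4 := (hT _ k1 u huσ hu2).2.2.2
      rw [← ez] at h4
      exact h4.trans (mul_le_mul_of_nonneg_left k2 hη0.le)
    · have := hmem 0 (by simp)
      simpa using this
    · exact hmem τ (by linarith)
  · intro t ht
    have ht2 : 1 / 4 ≤ t ^ 2 := by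
      rw [← sq_abs]; nlinarith
    have hneg : s - ((y * t : ℝ) : ℂ) * I = s + ((-(y * t) : ℝ) : ℂ) * I := by push_cast; ring
    rw [hneg]
    set v : ℝ := y * t with hv
    have hv1 : |v| ≤ |t| := by
      rw [hv, abs_mul, abs_of_pos hy']
      nlinarith [abs_nonneg t]
    rcases le_or_gt |v| (x / 2) with hvx | hvx
    · -- moderate displacement
      have key : ∀ v : ℝ, |v| ≤ x / 2 → ‖Zt (s + v * I)‖ ≤ 2 * B * (x * Real.exp (2 * η * ℓ)) := by
        intro v hv
        obtain ⟨k1, k2, k3⟩ := hlog2 v hv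
        have h1 := (hT _ k1 u huσ hu2).1
        have h2 := (Zt_two hB1 hB (x + v)).1
        rw [hmv]
        have h3 : Real.exp (η * Real.log |x + v|) ≤ Real.exp (2 * η * ℓ) :=
          Real.exp_le_exp.2 (by nlinarith)
        have h4 : ‖Zt (2 + ((x + v : ℝ) : ℂ) * I)‖ ≤ 2 * B * x := by
          refine h2.trans ?_
          nlinarith
        calc _ ≤ _ := h1
          _ ≤ (2 * B * x) * Real.exp (2 * η * ℓ) :=
              mul_le_mul h4 h3 (Real.exp_pos _).le (by positivity)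
          _ = _ := by ring
      have h1 := key v hvx
      have h2 := key (-v) (by rwa [abs_neg])
      have h3 : Real.exp (2 * κ * ℓ) ≤ (1 + t ^ 2) ^ (ε * (y * Λ)) := by
        have e1 : Real.exp (2 * κ * ℓ) = (5 / 4 : ℝ) ^ (ε * y0 * (ℓ / 2)) := by
          rw [Real.rpow_def_of_pos (by norm_num), ← hl, hκ]
          congr 1; ring
        rw [e1]
        have h4 : (5 / 4 : ℝ) ^ (ε * y0 * (ℓ / 2)) ≤ (5 / 4 : ℝ) ^ (ε * (y * Λ)) := by
          apply Real.rpow_le_rpow_of_exponent_le (by norm_num)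
          have h5 : y0 * (ℓ / 2) ≤ y * Λ := mul_le_mul hyy hLg (by positivity) hy'.le
          have h6 := mul_le_mul_of_nonneg_left h5 hε.le
          rw [← mul_assoc] at h6
          exact h6
        refine h4.trans (Real.rpow_le_rpow (by norm_num) (by linarith) (by positivity))
      have h4 : 4 * B ^ 4 ≤ Real.exp (κ * ℓ) := by
        have := Real.exp_le_exp.2 hlx1
        rwa [Real.exp_log (by positivity)] at this
      have h5 : Real.exp ((1 - η) * ℓ) ^ 2 ≤ (B * ‖Zt s‖) ^ 2 :=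
        pow_le_pow_left₀ (Real.exp_pos _).le hZlow 2
      -- assemble
      have h6 : 4 * B ^ 4 * (x * Real.exp (2 * η * ℓ)) ^ 2 ≤
          Real.exp (2 * κ * ℓ) * Real.exp ((1 - η) * ℓ) ^ 2 := by
        have e1 : (x * Real.exp (2 * η * ℓ)) ^ 2 = Real.exp (6 * η * ℓ) * Real.exp ((1 - η) * ℓ) ^ 2 := by
          nth_rewrite 1 [← hexpx]
          rw [← Real.exp_add, ← Real.exp_nat_mul, ← Real.exp_nat_mul, ← Real.exp_add]
          congr 1; push_cast; ring
        have e2 : Real.exp (2 * κ * ℓ) = Real.exp (κ * ℓ) * Real.exp (κ * ℓ) := by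
          rw [← Real.exp_add]; congr 1; ring
        have h7 : Real.exp (6 * η * ℓ) ≤ Real.exp (κ * ℓ) := Real.exp_le_exp.2 (by nlinarith)
        rw [e1, e2, ← mul_assoc]
        apply mul_le_mul_of_nonneg_right _ (by positivity)
        exact mul_le_mul h4 h7 (Real.exp_pos _).le (Real.exp_pos _).le
      have hB0 : 0 < B ^ 2 := by positivity
      have h8 : B ^ 2 * (‖Zt (s + v * I)‖ * ‖Zt (s + ((-v : ℝ) : ℂ) * I)‖) ≤
          B ^ 2 * ((1 + t ^ 2) ^ (ε * (y * Λ)) * ‖Zt s‖ ^ 2) := by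
        calc B ^ 2 * (‖Zt (s + v * I)‖ * ‖Zt (s + ((-v : ℝ) : ℂ) * I)‖)
            ≤ B ^ 2 * ((2 * B * (x * Real.exp (2 * η * ℓ))) * (2 * B * (x * Real.exp (2 * η * ℓ)))) := by
              apply mul_le_mul_of_nonneg_left _ hB0.le
              exact mul_le_mul h1 h2 (norm_nonneg _) (by positivity)
          _ = 4 * B ^ 4 * (x * Real.exp (2 * η * ℓ)) ^ 2 := by ring
          _ ≤ Real.exp (2 * κ * ℓ) * Real.exp ((1 - η) * ℓ) ^ 2 := h6
          _ ≤ (1 + t ^ 2) ^ (ε * (y * Λ)) * (B * ‖Zt s‖) ^ 2 :=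
              mul_le_mul h3 h5 (by positivity) (by positivity)
          _ = _ := by ring
      exact le_of_mul_le_mul_left h8 hB0
    · -- large displacement
      have hvx1 : 108 ≤ |v| := by linarith
      have key : ∀ v : ℝ, x / 2 < |v| → ‖Zt (s + v * I)‖ ≤ 108 * v ^ 2 := by
        intro v hv
        have h1 : ‖Zt (s + v * I)‖ ≤ 3 * (‖s + v * I‖ + 1) ^ 2 := by
          apply Pool.Agent.H306R2.Zt_norm_le
          rw [hmv]
          simp
          linarith
        have h2 : ‖s + v * I‖ ≤ 2 + x + |v| := by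
          rw [hsu]
          refine norm_add₃_le.trans ?_
          rw [norm_mul, norm_mul, norm_I, mul_one, mul_one, Complex.norm_real, Complex.norm_real,
            Complex.norm_real, Real.norm_eq_abs, Real.norm_eq_abs, Real.norm_eq_abs, abs_of_pos hx0,
            abs_of_pos (by linarith : 0 < u)]
          linarith
        have h3 : ‖s + v * I‖ + 1 ≤ 6 * |v| := by linarith
        have h4 : (‖s + v * I‖ + 1) ^ 2 ≤ (6 * |v|) ^ 2 := pow_le_pow_left₀ (by positivity) h3 2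
        rw [mul_pow, sq_abs] at h4
        linarith
      have h1 := key v hvx
      have h2 := key (-v) (by rwa [abs_neg])
      rw [neg_sq] at h2
      have hvt : v ^ 2 ≤ t ^ 2 := by
        rw [← sq_abs v, ← sq_abs t]
        exact pow_le_pow_left₀ (abs_nonneg _) hv1 2
      have ht108 : 108 ^ 2 ≤ t ^ 2 := by
        rw [← sq_abs t]
        exact pow_le_pow_left₀ (by norm_num) (hvx1.trans hv1) 2
      have hZ1 : 1 ≤ ‖Zt s‖ := by
        have h3 : B ≤ Real.exp ((1 - η) * ℓ) := by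
          rw [← Real.log_le_iff_le_exp (by linarith)]
          nlinarith
        have h4 : B * 1 ≤ B * ‖Zt s‖ := by rw [mul_one]; exact h3.trans hZlow
        exact le_of_mul_le_mul_left h4 (by linarith)
      have h3 : (t ^ 2) ^ 3 ≤ (1 + t ^ 2) ^ (ε * (y * Λ)) := by
        have h4 : (3 : ℝ) ≤ ε * (y * Λ) := by
          have h5 : y0 * (ℓ / 2) ≤ y * Λ := mul_le_mul hyy hLg (by positivity) hy'.le
          have h6 := mul_le_mul_of_nonneg_left h5 hε.le
          have h7 : ε * (y0 * (ℓ / 2)) = ε * y0 * ℓ / 2 := by ring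
          linarith
        calc (t ^ 2) ^ 3 ≤ (1 + t ^ 2) ^ 3 := pow_le_pow_left₀ (sq_nonneg t) (by linarith) 3
          _ = (1 + t ^ 2) ^ (3 : ℝ) := by
              rw [← Real.rpow_natCast]; norm_num
          _ ≤ _ := Real.rpow_le_rpow_of_exponent_le (by linarith) h4
      have hZ1' : 1 ≤ ‖Zt s‖ ^ 2 := one_le_pow₀ hZ1
      calc ‖Zt (s + v * I)‖ * ‖Zt (s + ((-v : ℝ) : ℂ) * I)‖ ≤ (108 * v ^ 2) * (108 * v ^ 2) :=
            mul_le_mul h1 h2 (norm_nonneg _) (by positivity)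
        _ ≤ (108 * t ^ 2) * (108 * t ^ 2) :=
            mul_le_mul (by linarith) (by linarith) (by positivity) (by positivity)
        _ = 108 ^ 2 * (t ^ 2) ^ 2 := by ring
        _ ≤ t ^ 2 * (t ^ 2) ^ 2 := mul_le_mul_of_nonneg_right ht108 (by positivity)
        _ = (t ^ 2) ^ 3 * 1 := by ring
        _ ≤ (1 + t ^ 2) ^ (ε * (y * Λ)) * ‖Zt s‖ ^ 2 :=
            mul_le_mul h3 hZ1' (by norm_num) (by positivity)

end Pool.Agent.Helper68.JE
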